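import Pool.Agent.W2helper59.LN.Asm0
import Pool.Agent.W2helper59.LN.D_E1
import Pool.Agent.W2helper59.LN.D_E2
import Pool.Agent.W2helper59.LN.D_E3

/-!
# S03669: the exit hypothesis AE (from `S6_final`, `P10_exit` and the data boxes E1, E2, E3)
-/

set_option autoImplicit false

namespace Pool.Agent.W2helper26.LN

open Set Pool.Agent.W2helper59.LN

/-- an exit box -/
lemma exBox (h6 : S6_final) (hd : Hdr) (s : StepD) (l : List StepD) (hl : l ≠ [])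
    (hc : chainOK hd (s :: l) = true) (hb : finB hd s = true) (m M1 : ℚ)
    (hz : finZ hd (lastS s l) m = true) (hlp : finLip hd (lastS s l) M1 = true) (ξ r : ℝ)
    (ha : s.a = 1) (e1 : (hd.A0 : ℝ) / 2 ^ hd.e = ξ) (e2 : (hd.A1 : ℝ) / 2 ^ hd.e = r)
    (e3 : (hd.Q0 : ℝ) / 2 ^ hd.e = 3 / 16) (e4 : hd.Q1 = 0) (e5 : hd.b0 = 1 / 2 ^ 18)
    (e6 : hd.B1 = 0) (e7 : sc hd.bt = 1 / 2 ^ 18) :
    ∃ ω κ : ℝ → ℝ → ℝ → ℝ, (∀ Bv ∈ Icc (0:ℝ) (1 / 2 ^ 17),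
      BoxRes 1 ξ r (3 / 16) 0 Bv 0 ((lastS s l).a : ℝ) ((lastS s l).bb : ℝ) m M1 (ω Bv) (κ Bv)) ∧
    (∀ Bv ∈ Icc (0:ℝ) (1 / 2 ^ 17), ∀ Bv' ∈ Icc (0:ℝ) (1 / 2 ^ 17), ∀ δ ∈ Icc (-1/2 : ℝ) (1/2),
      ∀ t ∈ Icc ((lastS s l).a : ℝ) ((lastS s l).bb : ℝ), |ω Bv δ t - ω Bv' δ t| ≤
        ((sc (lastS s l).nu1 / (sc (lastS s l).g * (lastS s l).a) : ℚ) : ℝ) * |Bv - Bv'|) := by
  obtain ⟨ω, κ, h1, -⟩ := h6 hd s l hc hb
  have hadm : ∀ Bv ∈ Icc (0:ℝ) (1 / 2 ^ 17), BAdm hd Bv := by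
    intro Bv hBv
    unfold BAdm
    rw [e5, e7]
    push_cast
    rw [abs_le]
    have h0 := hBv.1
    have h2 := hBv.2
    norm_num at h2 ⊢
    constructor <;> linarith
  have ea : (s.a : ℝ) = 1 := by rw [ha]; norm_num
  have f1 : hd.a0 = ξ := e1
  have f2 : hd.a1 = r := e2
  have f3 : hd.q0 = 3 / 16 := e3
  have f4 : hd.q1 = 0 := by unfold Hdr.q1; rw [e4]; simp
  have f6 : hd.b1 = 0 := by unfold Hdr.b1; rw [e6]; simp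
  refine ⟨ω, κ, ?_, ?_⟩
  · intro Bv hBv
    have hB := (h1 m M1 hl hz hlp Bv (hadm Bv hBv)).1
    rw [ea, f1, f2, f3, f4, f6] at hB
    exact hB
  · intro Bv hBv Bv' hBv' δ hδ t ht
    exact (h1 m M1 hl hz hlp Bv (hadm Bv hBv)).2.2.2.2 Bv' (hadm Bv' hBv') δ hδ t ht

/-- **AE** -/
theorem ae (h6 : S6_final) (h10 : P10_exit) : AE := by
  obtain ⟨ω1, κ1, b1, c1⟩ := exBox h6 D_E1.hd D_E1.s0 D_E1.ss (by simp [D_E1.ss]) D_E1.ok D_E1.fb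
    D_E1.m D_E1.M1 D_E1.fz D_E1.fl (447/2048) (63/1024) (by decide +kernel)
    (by norm_num [D_E1.hd]) (by norm_num [D_E1.hd]) (by norm_num [D_E1.hd]) rfl
    (by decide +kernel) rfl (by decide +kernel)
  obtain ⟨ω2, κ2, b2, c2⟩ := exBox h6 D_E2.hd D_E2.s0 D_E2.ss (by simp [D_E2.ss]) D_E2.ok D_E2.fb
    D_E2.m D_E2.M1 D_E2.fz D_E2.fl (285/1024) (60/1024) (by decide +kernel)
    (by norm_num [D_E2.hd]) (by norm_num [D_E2.hd]) (by norm_num [D_E2.hd]) rfl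
    (by decide +kernel) rfl (by decide +kernel)
  obtain ⟨ω3, κ3, b3, c3⟩ := exBox h6 D_E3.hd D_E3.s0 D_E3.ss (by simp [D_E3.ss]) D_E3.ok D_E3.fb
    D_E3.m D_E3.M1 D_E3.fz D_E3.fl (342/1024) (54/1024) (by decide +kernel)
    (by norm_num [D_E3.hd]) (by norm_num [D_E3.hd]) (by norm_num [D_E3.hd]) rfl
    (by decide +kernel) rfl (by decide +kernel)
  have q1 : ((lastS D_E1.s0 D_E1.ss).bb / (lastS D_E1.s0 D_E1.ss).a) *
      (D_E1.M1 / (D_E1.m * (63/1024))) ≤ 15 / 2 := by decide +kernel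
  have r1 : ((lastS D_E1.s0 D_E1.ss).bb / (lastS D_E1.s0 D_E1.ss).a) *
      ((sc (lastS D_E1.s0 D_E1.ss).nu1 / (sc (lastS D_E1.s0 D_E1.ss).g *
        (lastS D_E1.s0 D_E1.ss).a)) / D_E1.m) ≤ 11 := by decide +kernel
  have q2 : ((lastS D_E2.s0 D_E2.ss).bb / (lastS D_E2.s0 D_E2.ss).a) *
      (D_E2.M1 / (D_E2.m * (60/1024))) ≤ 15 / 2 := by decide +kernel
  have r2 : ((lastS D_E2.s0 D_E2.ss).bb / (lastS D_E2.s0 D_E2.ss).a) *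
      ((sc (lastS D_E2.s0 D_E2.ss).nu1 / (sc (lastS D_E2.s0 D_E2.ss).g *
        (lastS D_E2.s0 D_E2.ss).a)) / D_E2.m) ≤ 11 := by decide +kernel
  have q3 : ((lastS D_E3.s0 D_E3.ss).bb / (lastS D_E3.s0 D_E3.ss).a) *
      (D_E3.M1 / (D_E3.m * (54/1024))) ≤ 15 / 2 := by decide +kernel
  have r3 : ((lastS D_E3.s0 D_E3.ss).bb / (lastS D_E3.s0 D_E3.ss).a) *
      ((sc (lastS D_E3.s0 D_E3.ss).nu1 / (sc (lastS D_E3.s0 D_E3.ss).g *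
        (lastS D_E3.s0 D_E3.ss).a)) / D_E3.m) ≤ 11 := by decide +kernel
  refine ⟨15 / 2, 11, by norm_num, by norm_num, ?_, by norm_num⟩
  refine h10 3
    (fun k => if k = 0 then 447/2048 else if k = 1 then 285/1024 else 342/1024)
    (fun k => if k = 0 then 63/1024 else if k = 1 then 60/1024 else 54/1024)
    (fun k => if k = 0 then (((lastS D_E1.s0 D_E1.ss).a : ℚ) : ℝ) else
      if k = 1 then (((lastS D_E2.s0 D_E2.ss).a : ℚ) : ℝ) else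
        (((lastS D_E3.s0 D_E3.ss).a : ℚ) : ℝ))
    (fun k => if k = 0 then (((lastS D_E1.s0 D_E1.ss).bb : ℚ) : ℝ) else
      if k = 1 then (((lastS D_E2.s0 D_E2.ss).bb : ℚ) : ℝ) else
        (((lastS D_E3.s0 D_E3.ss).bb : ℚ) : ℝ))
    (fun k => if k = 0 then ((D_E1.m : ℚ) : ℝ) else
      if k = 1 then ((D_E2.m : ℚ) : ℝ) else ((D_E3.m : ℚ) : ℝ))
    (fun k => if k = 0 then ((D_E1.M1 : ℚ) : ℝ) else
      if k = 1 then ((D_E2.M1 : ℚ) : ℝ) else ((D_E3.M1 : ℚ) : ℝ))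
    (fun k => if k = 0 then ((sc (lastS D_E1.s0 D_E1.ss).nu1 / (sc (lastS D_E1.s0 D_E1.ss).g *
        (lastS D_E1.s0 D_E1.ss).a) : ℚ) : ℝ) else
      if k = 1 then ((sc (lastS D_E2.s0 D_E2.ss).nu1 / (sc (lastS D_E2.s0 D_E2.ss).g *
        (lastS D_E2.s0 D_E2.ss).a) : ℚ) : ℝ) else
      ((sc (lastS D_E3.s0 D_E3.ss).nu1 / (sc (lastS D_E3.s0 D_E3.ss).g *
        (lastS D_E3.s0 D_E3.ss).a) : ℚ) : ℝ))
    (3 / 16) (9 / 25) (1 / 2 ^ 17) (15 / 2) 11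
    (fun k => if k = 0 then ω1 else if k = 1 then ω2 else ω3)
    (fun k => if k = 0 then κ1 else if k = 1 then κ2 else κ3)
    (by norm_num) (by positivity) (by norm_num) (by norm_num) (by norm_num)
    ?_ ?_ ?_ ?_ ?_ ?_ ?_
  · intro k hk
    interval_cases k <;> norm_num
  · norm_num
  · intro k hk
    have : k < 2 := by omega
    interval_cases k <;> norm_num
  · norm_num
  · intro k hk Bv hBv
    interval_cases k
    · exact b1 Bv hBv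
    · exact b2 Bv hBv
    · exact b3 Bv hBv
  · intro k hk Bv hBv Bv' hBv' δ hδ t ht
    interval_cases k
    · exact c1 Bv hBv Bv' hBv' δ hδ t ht
    · exact c2 Bv hBv Bv' hBv' δ hδ t ht
    · exact c3 Bv hBv Bv' hBv' δ hδ t ht
  · intro k hk
    have Q1 : ((((lastS D_E1.s0 D_E1.ss).bb / (lastS D_E1.s0 D_E1.ss).a) *
      (D_E1.M1 / (D_E1.m * (63/1024))) : ℚ) : ℝ) ≤ ((15 / 2 : ℚ) : ℝ) := by exact_mod_cast q1
    have R1 : ((((lastS D_E1.s0 D_E1.ss).bb / (lastS D_E1.s0 D_E1.ss).a) *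
      ((sc (lastS D_E1.s0 D_E1.ss).nu1 / (sc (lastS D_E1.s0 D_E1.ss).g *
        (lastS D_E1.s0 D_E1.ss).a)) / D_E1.m) : ℚ) : ℝ) ≤ ((11 : ℚ) : ℝ) := by exact_mod_cast r1
    have Q2 : ((((lastS D_E2.s0 D_E2.ss).bb / (lastS D_E2.s0 D_E2.ss).a) *
      (D_E2.M1 / (D_E2.m * (60/1024))) : ℚ) : ℝ) ≤ ((15 / 2 : ℚ) : ℝ) := by exact_mod_cast q2
    have R2 : ((((lastS D_E2.s0 D_E2.ss).bb / (lastS D_E2.s0 D_E2.ss).a) *
      ((sc (lastS D_E2.s0 D_E2.ss).nu1 / (sc (lastS D_E2.s0 D_E2.ss).g *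
        (lastS D_E2.s0 D_E2.ss).a)) / D_E2.m) : ℚ) : ℝ) ≤ ((11 : ℚ) : ℝ) := by exact_mod_cast r2
    have Q3 : ((((lastS D_E3.s0 D_E3.ss).bb / (lastS D_E3.s0 D_E3.ss).a) *
      (D_E3.M1 / (D_E3.m * (54/1024))) : ℚ) : ℝ) ≤ ((15 / 2 : ℚ) : ℝ) := by exact_mod_cast q3
    have R3 : ((((lastS D_E3.s0 D_E3.ss).bb / (lastS D_E3.s0 D_E3.ss).a) *
      ((sc (lastS D_E3.s0 D_E3.ss).nu1 / (sc (lastS D_E3.s0 D_E3.ss).g *
        (lastS D_E3.s0 D_E3.ss).a)) / D_E3.m) : ℚ) : ℝ) ≤ ((11 : ℚ) : ℝ) := by exact_mod_cast r3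
    interval_cases k
    · push_cast at Q1 R1 ⊢
      exact ⟨Q1, R1⟩
    · push_cast at Q2 R2 ⊢
      exact ⟨Q2, R2⟩
    · push_cast at Q3 R3 ⊢
      exact ⟨Q3, R3⟩

end Pool.Agent.W2helper26.LN
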