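import Pool.Agent.W2helper59.LN.Stm

/-!
# P10c: exit boxes give `ExitHyp`
-/

set_option autoImplicit false

namespace Pool.Agent.W2helper26.LN

open Set Pool.Agent.W2helper59.LN

theorem solOn_mono {F : ℝ → ℝ → ℝ} {t0 t1 t2 : ℝ} {v q : ℝ → ℝ} (h : SolOn F t0 t1 v q)
    (h2 : t2 ≤ t1) : SolOn F t0 t2 v q :=
  ⟨h.cv.mono (Icc_subset_Icc le_rfl h2), h.cq.mono (Icc_subset_Icc le_rfl h2),
    fun t ht => h.dv t ⟨ht.1, ht.2.trans_le h2⟩, fun t ht => h.dq t ⟨ht.1, ht.2.trans_le h2⟩⟩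

theorem lip_poly {R B x y : ℝ} (hR : 0 ≤ R) (hB : 0 ≤ B) (hx : |x| ≤ R) (hy : |y| ≤ R) :
    |(x ^ 4 + B * x ^ 7) - (y ^ 4 + B * y ^ 7)| ≤ (4 * R ^ 3 + 7 * B * R ^ 6) * |x - y| := by
  have e : (x ^ 4 + B * x ^ 7) - (y ^ 4 + B * y ^ 7) =
      ((x ^ 3 + x ^ 2 * y + x * y ^ 2 + y ^ 3) +
        B * (x ^ 6 + x ^ 5 * y + x ^ 4 * y ^ 2 + x ^ 3 * y ^ 3 + x ^ 2 * y ^ 4 + x * y ^ 5 + y ^ 6))
        * (x - y) := by ring
  have hm : ∀ i j : ℕ, |x ^ i * y ^ j| ≤ R ^ (i + j) := by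
    intro i j
    rw [abs_mul, abs_pow, abs_pow, pow_add]
    exact mul_le_mul (pow_le_pow_left₀ (abs_nonneg _) hx _) (pow_le_pow_left₀ (abs_nonneg _) hy _)
      (pow_nonneg (abs_nonneg _) _) (pow_nonneg hR _)
  rw [e, abs_mul]
  refine mul_le_mul_of_nonneg_right ?_ (abs_nonneg _)
  refine (abs_add_le _ _).trans ?_
  have h1 : |x ^ 3 + x ^ 2 * y + x * y ^ 2 + y ^ 3| ≤ 4 * R ^ 3 := by
    have a1 := abs_le.1 (hm 3 0); have a2 := abs_le.1 (hm 2 1)
    have a3 := abs_le.1 (hm 1 2); have a4 := abs_le.1 (hm 0 3)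
    norm_num at a1 a2 a3 a4
    rw [abs_le]; constructor <;> linarith [a1.1, a1.2, a2.1, a2.2, a3.1, a3.2, a4.1, a4.2]
  have h2 : |x ^ 6 + x ^ 5 * y + x ^ 4 * y ^ 2 + x ^ 3 * y ^ 3 + x ^ 2 * y ^ 4 + x * y ^ 5 + y ^ 6|
      ≤ 7 * R ^ 6 := by
    have a1 := abs_le.1 (hm 6 0); have a2 := abs_le.1 (hm 5 1)
    have a3 := abs_le.1 (hm 4 2); have a4 := abs_le.1 (hm 3 3)
    have a5 := abs_le.1 (hm 2 4); have a6 := abs_le.1 (hm 1 5); have a7 := abs_le.1 (hm 0 6)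
    norm_num at a1 a2 a3 a4 a5 a6 a7
    rw [abs_le]; constructor <;>
      linarith [a1.1, a1.2, a2.1, a2.2, a3.1, a3.2, a4.1, a4.2, a5.1, a5.2, a6.1, a6.2, a7.1, a7.2]
  rw [abs_mul, abs_of_nonneg hB]
  nlinarith [mul_le_mul_of_nonneg_left h2 hB]

theorem zeroE_unique (hst : P1_stab) {ε ξ Bv τ τ' : ℝ} (hB : 0 ≤ Bv) (h : ZeroE ε ξ Bv τ)
    (h' : ZeroE ε ξ Bv τ') : τ = τ' := by
  obtain ⟨ht, v, q, hs, hv1, hq1, hvτ, hpos⟩ := h
  obtain ⟨ht', w, r, hs', hw1, hr1, hwτ, hpos'⟩ := h'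
  -- common interval
  have key : ∀ T, 1 < T → T ≤ τ → T ≤ τ' → v T = w T := by
    intro T hT h1 h2
    have s1 := solOn_mono hs h1
    have s2 := solOn_mono hs' h2
    obtain ⟨R1, hR1⟩ := isCompact_Icc.exists_bound_of_continuousOn s1.cv
    obtain ⟨R2, hR2⟩ := isCompact_Icc.exists_bound_of_continuousOn s2.cv
    set R := max (max R1 R2) 0 with hR
    have hR0 : 0 ≤ R := le_max_right _ _
    obtain ⟨C, hC, H⟩ := hst (4 * R ^ 3 + 7 * Bv * R ^ 6) 1 T (by positivity) zero_le_one hT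
    have := (H ℝ _ _ v q w r 0 s1 s2 le_rfl (by
      intro t ht
      rw [add_zero]
      refine lip_poly hR0 hB ?_ ?_
      · exact (hR1 t ht).trans ((le_max_left _ _).trans (le_max_left _ _))
      · exact (hR2 t ht).trans ((le_max_right _ _).trans (le_max_left _ _)))
      T ⟨hT.le, le_rfl⟩).1
    rw [hv1, hw1, hq1, hr1] at this
    simp only [sub_self, norm_zero, add_zero, mul_zero] at this
    have h3 := norm_le_zero_iff.1 this
    linarith
  rcases lt_trichotomy τ τ' with hlt | he | hlt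
  · have h1 := key τ ht le_rfl hlt.le
    have h2 := hpos' τ ⟨ht.le, hlt⟩
    rw [← h1, hvτ] at h2
    exact absurd h2 (lt_irrefl _)
  · exact he
  · have h1 := key τ' ht' hlt.le le_rfl
    have h2 := hpos τ' ⟨ht'.le, hlt⟩
    rw [h1, hwτ] at h2
    exact absurd h2 (lt_irrefl _)

/-- `t ω(t)` decreases at speed at least `m` -/
theorem slope {F : ℝ → ℝ → ℝ} {t0 a b m : ℝ} {v q : ℝ → ℝ} (h : SolOn F t0 b v q) (_h0 : 0 ≤ t0)
    (ha : t0 < a) (hneg : ∀ t ∈ Icc a b, q t ≤ -m) {s t : ℝ} (hs : a ≤ s) (hst : s < t)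
    (htb : t ≤ b) : t * v t - s * v s ≤ -(m * (t - s)) := by
  have hc : ContinuousOn (fun x => x • v x) (Icc s t) :=
    continuousOn_id.smul (h.cv.mono (Icc_subset_Icc (ha.le.trans hs) htb))
  obtain ⟨c, hc1, hc2⟩ := exists_hasDerivAt_eq_slope (fun x => x • v x) q hst hc
    (fun x hx => h.dv x ⟨ha.trans_le (hs.trans hx.1.le), hx.2.trans_le htb⟩)
  have h3 := hneg c ⟨hs.trans hc1.1.le, hc1.2.le.trans htb⟩
  rw [hc2, div_le_iff₀ (by linarith)] at h3
  simp only [smul_eq_mul] at h3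
  linarith

theorem exists_zero {F : ℝ → ℝ → ℝ} {t0 a b m : ℝ} {v q : ℝ → ℝ} (h : SolOn F t0 b v q)
    (h0 : 0 ≤ t0) (ha : t0 < a) (hab : a < b) (hm : 0 < m) (hneg : ∀ t ∈ Icc a b, q t ≤ -m)
    (hpos : ∀ t ∈ Icc t0 a, 0 < v t) (hz : v b < 0) :
    ∃ S ∈ Ioo a b, v S = 0 ∧ ∀ t ∈ Ico t0 S, 0 < v t := by
  have hc : ContinuousOn v (Icc a b) := h.cv.mono (Icc_subset_Icc ha.le le_rfl)
  have hva : 0 < v a := hpos a ⟨ha.le, le_rfl⟩
  obtain ⟨S, hS, hS0⟩ := intermediate_value_Icc' hab.le hc ⟨hz.le, hva.le⟩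
  have hSa : S ≠ a := by rintro rfl; rw [hS0] at hva; exact lt_irrefl _ hva
  have hSb : S ≠ b := by rintro rfl; rw [hS0] at hz; exact lt_irrefl _ hz
  have h1 : a < S := lt_of_le_of_ne hS.1 (Ne.symm hSa)
  have h2 : S < b := lt_of_le_of_ne hS.2 hSb
  refine ⟨S, ⟨h1, h2⟩, hS0, ?_⟩
  intro t ht
  by_cases hta : t ≤ a
  · exact hpos t ⟨ht.1, hta⟩
  · push Not at hta
    have := slope h h0 ha hneg hta.le ht.2 h2.le
    rw [hS0, mul_zero, zero_sub] at this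
    have h3 : 0 < m * (S - t) := mul_pos hm (by linarith [ht.2])
    have h4 : 0 < t * v t := by linarith
    have ht0 : 0 ≤ t := h0.trans ht.1
    exact (pos_iff_pos_of_mul_pos h4).1 (lt_of_le_of_ne ht0 (fun hh => by
      rw [← hh, zero_mul] at h4; exact lt_irrefl _ h4))

theorem log_est {F G : ℝ → ℝ → ℝ} {t0 a b m D : ℝ} {v q w r : ℝ → ℝ} (h : SolOn F t0 b v q)
    (h' : SolOn G t0 b w r)
    (h0 : 0 ≤ t0) (ha : t0 < a) (hab : a < b) (hm : 0 < m) (hneg : ∀ t ∈ Icc a b, q t ≤ -m)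
    (hneg' : ∀ t ∈ Icc a b, r t ≤ -m) (hD : ∀ t ∈ Icc a b, |v t - w t| ≤ D)
    {S S' : ℝ} (hS : S ∈ Ioo a b) (hS' : S' ∈ Ioo a b) (hvS : v S = 0) (hwS : w S' = 0) :
    |Real.log S - Real.log S'| ≤ (b / a) * (D / m) := by
  have ha0 : 0 < a := h0.trans_lt ha
  have hD0 : 0 ≤ D := (abs_nonneg _).trans (hD a ⟨le_rfl, hab.le⟩)
  -- one sided version
  have key : ∀ {v w q : ℝ → ℝ} {F : ℝ → ℝ → ℝ} {S S' : ℝ}, SolOn F t0 b v q →
      (∀ t ∈ Icc a b, q t ≤ -m) → (∀ t ∈ Icc a b, |v t - w t| ≤ D) → S ∈ Ioo a b → S' ∈ Ioo a b →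
      v S = 0 → w S' = 0 → S < S' → Real.log S' - Real.log S ≤ (b / a) * (D / m) := by
    intro v w q F S S' h hneg hD hS hS' hvS hwS hlt
    have hs := slope h h0 ha hneg hS.1.le hlt hS'.2.le
    rw [hvS, mul_zero, sub_zero] at hs
    have hv := hD S' ⟨hS'.1.le, hS'.2.le⟩
    rw [hwS, sub_zero] at hv
    have hv1 := (abs_le.1 hv).1
    have hSpos : 0 < S := ha0.trans hS.1
    have hSpos' : 0 < S' := ha0.trans hS'.1
    have h1 : m * (S' - S) ≤ S' * D := by nlinarith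
    have h2 : (S' - S) / S ≤ (b / a) * (D / m) := by
      have e1 : (S' - S) ≤ S' * (D / m) := by
        rw [mul_div_assoc', le_div_iff₀ hm]; linarith
      have e2 : (S' - S) / S ≤ S' / S * (D / m) := by
        rw [div_le_iff₀ hSpos]
        calc S' - S ≤ S' * (D / m) := e1
          _ = S' / S * (D / m) * S := by field_simp
      refine e2.trans (mul_le_mul_of_nonneg_right ?_ (by positivity))
      exact div_le_div₀ (by linarith [hS'.2, hSpos']) hS'.2.le ha0 hS.1.le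
    rw [← Real.log_div hSpos'.ne' hSpos.ne']
    have h3 := Real.log_le_sub_one_of_pos (div_pos hSpos' hSpos)
    have h4 : S' / S - 1 = (S' - S) / S := by field_simp
    linarith
  rcases lt_trichotomy S S' with hlt | he | hlt
  · have := key h hneg hD hS hS' hvS hwS hlt
    have hmono := Real.log_le_log (ha0.trans hS.1) hlt.le
    rw [abs_sub_comm, abs_of_nonneg (by linarith)]
    exact this
  · rw [he, sub_self, abs_zero]
    have : 0 < b := ha0.trans hab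
    positivity
  · have := key h' hneg' (fun t ht => by rw [abs_sub_comm]; exact hD t ht) hS' hS hwS hvS hlt
    have hmono := Real.log_le_log (ha0.trans hS'.1) hlt.le
    rw [abs_of_nonneg (by linarith)]
    exact this

theorem p10_exit (hst : P1_stab) : P10_exit := by
  intro n ξ r a b m M1 CB ε xm Bm L C ω κ hn hBm hε hL hC hr hlo hcons hhi hbox hCB hLC
  -- zeros inside the boxes
  have hz : ∀ k < n, ∀ Bv ∈ Icc 0 Bm, ∀ δ ∈ Icc (-1/2 : ℝ) (1/2),
      ∃ S ∈ Ioo (a k) (b k), ω k Bv δ S = 0 ∧ ZeroE ε (ξ k + r k * δ) Bv S := by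
    intro k hk Bv hBv δ hδ
    have hb := hbox k hk Bv hBv
    obtain ⟨S, hS, hS0, hSpos⟩ := exists_zero (hb.sol δ hδ) zero_le_one hb.ha hb.hab hb.hm
      (hb.neg δ hδ) (hb.pos δ hδ) (hb.zer δ hδ)
    refine ⟨S, hS, hS0, hb.ha.trans hS.1, ω k Bv δ, κ k Bv δ, ?_, hb.iv δ hδ, ?_, hS0, hSpos⟩
    · have h1 := solOn_mono (hb.sol δ hδ) hS.2.le
      have e : (fun (_ : ℝ) (v : ℝ) => v ^ 4 + (Bv + 0 * δ) * v ^ 7) =
          fun (_ : ℝ) (v : ℝ) => v ^ 4 + Bv * v ^ 7 := by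
        ext _ v; ring
      rw [e] at h1
      exact h1
    · rw [hb.iq δ hδ]; ring
  -- the end points
  set e : ℕ → ℝ := fun k => if k = 0 then ξ 0 - r 0 / 2 else ξ (k - 1) + r (k - 1) / 2 with he
  have he0 : ∀ k < n, ξ k - r k / 2 = e k := by
    intro k hk
    rcases Nat.eq_zero_or_pos k with h | h
    · subst h; simp [he]
    · have h1 := hcons (k - 1) (by omega)
      have h2 : k - 1 + 1 = k := by omega
      rw [h2] at h1
      simp only [he, Nat.pos_iff_ne_zero.1 h, if_false]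
      exact h1.symm
  have he1 : ∀ k, ξ k + r k / 2 = e (k + 1) := by
    intro k; simp [he]
  have hbx : ∀ k < n, ∀ x ∈ Icc (e k) (e (k + 1)), ∃ δ ∈ Icc (-1/2 : ℝ) (1/2), x = ξ k + r k * δ := by
    intro k hk x hx
    have hrk := hr k hk
    rw [← he0 k hk, ← he1 k] at hx
    refine ⟨(x - ξ k) / r k, ⟨?_, ?_⟩, by field_simp; ring⟩
    · rw [le_div_iff₀ hrk]; linarith [hx.1]
    · rw [div_le_iff₀ hrk]; linarith [hx.2]
  have hmono : ∀ k < n, e k < e (k + 1) := by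
    intro k hk
    rw [← he0 k hk, ← he1 k]; linarith [hr k hk]
  have hcover : ∀ j ≤ n, ∀ x ∈ Icc (e 0) (e j), 0 < j → ∃ k < j, x ∈ Icc (e k) (e (k + 1)) := by
    intro j
    induction j with
    | zero => intro _ x _ h; exact absurd h (lt_irrefl _)
    | succ j ih =>
      intro hj x hx _
      by_cases h : x ≤ e j ∧ 0 < j
      · obtain ⟨k, hk, hk2⟩ := ih (by omega) x ⟨hx.1, h.1⟩ h.2
        exact ⟨k, by omega, hk2⟩
      · refine ⟨j, by omega, ?_, hx.2⟩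
        by_cases h0 : 0 < j
        · push Not at h
          by_contra hcon
          push Not at hcon
          have := h hcon.le
          omega
        · have : j = 0 := by omega
          rw [this]; exact hx.1
  have hεe : e 0 ≤ ε := by simpa [he] using hlo
  have hxe : xm ≤ e n := by
    have h2 : n - 1 + 1 = n := by omega
    rw [← h2, ← he1 (n - 1)]; exact hhi
  have hin : ∀ x ∈ Icc ε xm, x ∈ Icc (e 0) (e n) := fun x hx => ⟨hεe.trans hx.1, hx.2.trans hxe⟩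
  -- Lipschitz in ξ inside a box
  have hlipbox : ∀ k < n, ∀ Bv ∈ Icc 0 Bm, ∀ x ∈ Icc (e k) (e (k + 1)), ∀ y ∈ Icc (e k) (e (k + 1)),
      ∀ τ τ', ZeroE ε x Bv τ → ZeroE ε y Bv τ' → |Real.log τ - Real.log τ'| ≤ L * |x - y| := by
    intro k hk Bv hBv x hx y hy τ τ' hτ hτ'
    obtain ⟨δ, hδ, rfl⟩ := hbx k hk x hx
    obtain ⟨δ', hδ', rfl⟩ := hbx k hk y hy
    obtain ⟨S, hS, hS0, hSE⟩ := hz k hk Bv hBv δ hδ
    obtain ⟨S', hS', hS0', hSE'⟩ := hz k hk Bv hBv δ' hδ'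
    have e1 := zeroE_unique hst hBv.1 hτ hSE
    have e2 := zeroE_unique hst hBv.1 hτ' hSE'
    rw [e1, e2]
    have hb := hbox k hk Bv hBv
    have h1 := log_est (hb.sol δ hδ) (hb.sol δ' hδ') zero_le_one hb.ha hb.hab hb.hm (hb.neg δ hδ)
      (hb.neg δ' hδ') (fun t ht => hb.lip δ hδ δ' hδ' t ht) hS hS' hS0 hS0'
    have hrk := hr k hk
    have e3 : |ξ k + r k * δ - (ξ k + r k * δ')| = r k * |δ - δ'| := by
      rw [show ξ k + r k * δ - (ξ k + r k * δ') = r k * (δ - δ') by ring, abs_mul,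
        abs_of_pos hrk]
    rw [e3]
    refine h1.trans ?_
    have hmk := hb.hm
    have e4 : b k / a k * (M1 k * |δ - δ'| / m k) =
        (b k / a k * (M1 k / (m k * r k))) * (r k * |δ - δ'|) := by
      field_simp
    rw [e4]
    exact mul_le_mul_of_nonneg_right (hLC k hk).1 (by positivity)
  -- existence everywhere
  have hex : ∀ x ∈ Icc (e 0) (e n), ∀ Bv ∈ Icc 0 Bm, ∃ τ, ZeroE ε x Bv τ := by
    intro x hx Bv hBv
    obtain ⟨k, hk, hk2⟩ := hcover n le_rfl x hx hn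
    obtain ⟨δ, hδ, rfl⟩ := hbx k hk x hk2
    obtain ⟨S, _, _, hSE⟩ := hz k hk Bv hBv δ hδ
    exact ⟨S, hSE⟩
  have hemono : ∀ i j, i ≤ j → j ≤ n → e i ≤ e j := by
    intro i j hij
    induction j with
    | zero => intro _; have : i = 0 := by omega
              rw [this]
    | succ j ih =>
      intro hj
      rcases Nat.lt_or_ge i (j + 1) with h | h
      · exact (ih (by omega) (by omega)).trans (hmono j (by omega)).le
      · have : i = j + 1 := by omega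
        rw [this]
  -- chain
  have hchain : ∀ Bv ∈ Icc 0 Bm, ∀ j ≤ n, ∀ x ∈ Icc (e 0) (e j), ∀ y ∈ Icc (e 0) (e j), x ≤ y →
      ∀ τ τ', ZeroE ε x Bv τ → ZeroE ε y Bv τ' → |Real.log τ - Real.log τ'| ≤ L * (y - x) := by
    intro Bv hBv j
    induction j with
    | zero =>
      intro _ x hx y hy hxy τ τ' hτ hτ'
      have hxy' : x = y := le_antisymm (hx.2.trans hy.1) (hy.2.trans hx.1)
      subst hxy'
      rw [zeroE_unique hst hBv.1 hτ hτ']; simp
    | succ j ih =>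
      intro hj x hx y hy hxy τ τ' hτ hτ'
      by_cases h1 : y ≤ e j
      · exact ih (by omega) x ⟨hx.1, hxy.trans h1⟩ y ⟨hy.1, h1⟩ hxy τ τ' hτ hτ'
      · push Not at h1
        by_cases h2 : e j ≤ x
        · have := hlipbox j (by omega) Bv hBv x ⟨h2, hx.2⟩ y ⟨h1.le, hy.2⟩ τ τ' hτ hτ'
          rwa [abs_sub_comm x y, abs_of_nonneg (by linarith : (0:ℝ) ≤ y - x)] at this
        · push Not at h2
          have hej : e j ∈ Icc (e 0) (e n) :=
            ⟨hemono 0 j (by omega) (by omega), hemono j n (by omega) le_rfl⟩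
          obtain ⟨σ, hσ⟩ := hex (e j) hej Bv hBv
          have a1 := ih (by omega) x ⟨hx.1, h2.le⟩ (e j) ⟨hej.1, le_rfl⟩ h2.le τ σ hτ hσ
          have a2 := hlipbox j (by omega) Bv hBv (e j) ⟨le_rfl, (hmono j (by omega)).le⟩ y
            ⟨h1.le, hy.2⟩ σ τ' hσ hτ'
          rw [abs_sub_comm (e j) y, abs_of_nonneg (by linarith : (0:ℝ) ≤ y - e j)] at a2
          have a3 := abs_sub_le (Real.log τ) (Real.log σ) (Real.log τ')
          nlinarith
  refine ⟨fun x hx Bv hBv => hex x (hin x hx) Bv hBv, ?_⟩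
  intro x hx y hy Bv hBv Bv' hBv' τ τ' hτ hτ'
  -- intermediate point (y, Bv)
  obtain ⟨σ, hσ⟩ := hex y (hin y hy) Bv hBv
  have a1 : |Real.log τ - Real.log σ| ≤ L * |x - y| := by
    rcases le_total x y with h | h
    · have := hchain Bv hBv n le_rfl x (hin x hx) y (hin y hy) h τ σ hτ hσ
      rwa [abs_sub_comm x y, abs_of_nonneg (by linarith : (0:ℝ) ≤ y - x)]
    · have := hchain Bv hBv n le_rfl y (hin y hy) x (hin x hx) h σ τ hσ hτ
      rwa [abs_sub_comm (Real.log τ), abs_of_nonneg (by linarith : (0:ℝ) ≤ x - y)]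
  have a2 : |Real.log σ - Real.log τ'| ≤ C * |Bv - Bv'| := by
    obtain ⟨k, hk, hk2⟩ := hcover n le_rfl y (hin y hy) hn
    obtain ⟨δ, hδ, rfl⟩ := hbx k hk y hk2
    obtain ⟨S, hS, hS0, hSE⟩ := hz k hk Bv hBv δ hδ
    obtain ⟨S', hS', hS0', hSE'⟩ := hz k hk Bv' hBv' δ hδ
    rw [zeroE_unique hst hBv.1 hσ hSE, zeroE_unique hst hBv'.1 hτ' hSE']
    have hb := hbox k hk Bv hBv
    have hb' := hbox k hk Bv' hBv'
    have h1 := log_est (hb.sol δ hδ) (hb'.sol δ hδ) zero_le_one hb.ha hb.hab hb.hm (hb.neg δ hδ)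
      (hb'.neg δ hδ) (fun t ht => hCB k hk Bv hBv Bv' hBv' δ hδ t ht) hS hS' hS0 hS0'
    refine h1.trans ?_
    have e4 : b k / a k * (CB k * |Bv - Bv'| / m k) =
        (b k / a k * (CB k / m k)) * |Bv - Bv'| := by ring
    rw [e4]
    exact mul_le_mul_of_nonneg_right (hLC k hk).2 (abs_nonneg _)
  have a3 := abs_sub_le (Real.log τ) (Real.log σ) (Real.log τ')
  linarith

end Pool.Agent.W2helper26.LN
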