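import Pool.Agent.W2helper59.LN.Stm

/-!
# P11: the window theorem in terms of `V`
-/

set_option autoImplicit false

namespace Pool.Agent.W2helper26.LN

open Set Pool.Agent.W2helper59.LN

theorem exit_unique {x y : ℝ → ℝ → ℝ} {s0 ε xm a s s' : ℝ} (h : Exit x y s0 ε xm a s)
    (h' : Exit x y s0 ε xm a s') : s = s' := by
  rcases lt_trichotomy s s' with hlt | he | hlt
  · have := (h'.2.2.1 s ⟨h.1.le, hlt⟩).2
    rw [h.2.1] at this; exact absurd this (lt_irrefl _)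
  · exact he
  · have := (h.2.2.1 s' ⟨h'.1.le, hlt⟩).2
    rw [h'.2.1] at this; exact absurd this (lt_irrefl _)

theorem p11_window (h6 : P6_window) (h7 : P7_local) (h8 : P8_exit) (h9 : P9_planar)
    (h9z : P9_zero) : P11_window := by
  intro V Q A B s0 ε xm c1 c2 z0 Gm C4 hF hT hA hAB hε hxm hc1 hc11 hc2 hz0 hGm hC4
    hcond1 hcond2 hcond3 hcond4 hpos hbox htrap hcone hyA hyB
  have hA0 : ∀ a ∈ Icc A B, 0 < a := fun a ha => lt_of_lt_of_le hA ha.1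
  have hxpos : ∀ a ∈ Icc A B, 0 < LX V a s0 := by
    intro a ha
    unfold LX
    exact mul_pos (Real.exp_pos _) (hpos a ha _ ⟨(Real.exp_pos _).le, le_rfl⟩)
  obtain ⟨hP, hU⟩ := h9 V Q hF
  obtain ⟨α, hα, o1, o2, o3, o4, o5⟩ := h6 (LX V) (LX Q) A B s0 ε xm c1 c2 z0 Gm C4 hAB hε hxm hc1
    hc11 hc2 hz0 hGm hC4 hcond1 hcond2 hcond3 hcond4 (fun a ha => hP a (hA0 a ha))
    (hU A B s0 hA hAB)
    (fun a ha => ⟨hxpos a ha, hbox a ha⟩) htrap hcone hyA hyB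
  have hαpos : 0 < α := hA.trans hα.1
  have hαI : α ∈ Icc A B := ⟨hα.1.le, hα.2.le⟩
  have hz0pos : 0 < z0 := by rw [hz0]; exact Real.exp_pos _
  have hIcoI : ∀ a ∈ Ico A α, a ∈ Icc A B := fun a ha => ⟨ha.1, ha.2.le.trans hα.2.le⟩
  have hIocI : ∀ a ∈ Ioc α B, a ∈ Icc A B := fun a ha => ⟨hα.1.le.trans ha.1.le, ha.2⟩
  refine ⟨α, hα, ?_, ?_, ?_, ?_⟩
  · intro a ha
    obtain ⟨s1, hs1, hx1, hx2⟩ := o2 a ha
    exact ⟨_, (h9z V Q hF a s0 (hA0 a (hIcoI a ha)) (hpos a (hIcoI a ha))).1 s1 hs1 hx1 hx2⟩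
  · intro a ha b hb hab Ta Tb hTa hTb
    have e1 := (h9z V Q hF a s0 (hA0 a (hIcoI a ha)) (hpos a (hIcoI a ha))).2.1 Ta hTa
    have e2 := (h9z V Q hF b s0 (hA0 b (hIcoI b hb)) (hpos b (hIcoI b hb))).2.1 Tb hTb
    have := o3 a ha b hb hab _ _ e1 e2
    exact (Real.log_lt_log_iff hTa.1 hTb.1).1 this
  · exact (h9z V Q hF α s0 hαpos (hpos α hαI)).2.2 (fun s hs => (o1 s hs).2)
  · intro κ Bm L C hκ hL hC hh hB hE hlt
    have hC4pos : 0 < C4 := by rw [hC4]; positivity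
    have hεxm : ε < xm := by linarith
    have hc12 : c1 < c2 := hc11.trans hc2
    have hbd : ∀ a ∈ Ioc α B, ∀ s1, Exit (LX V) (LX Q) s0 ε xm a s1 → Real.exp (-2 * s1) ≤ Bm := by
      intro a ha s1 hs1
      obtain ⟨s2, hs2, hle⟩ := o4 a ha
      have he := exit_unique hs1 hs2
      rw [he]
      have hya : 0 < LX Q a s0 := by
        have h1 := (o1 s0 le_rfl).1
        have h2 := (hcone α hαI a (hIocI a ha) ha.1).1
        linarith
      have h3 := hB a (hIocI a ha) hya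
      have h4 : Real.exp (-2 * s2) * ε ^ 3 ≤ Bm * ε ^ 3 := hle.trans h3
      exact le_of_mul_le_mul_right h4 (by positivity)
    have hloc := h7 (LX V) (LX Q) α B s0 ε xm c1 c2 κ hα.2 hε hxm hc1 hc12
      (by
        intro ξ hξ z hz
        have h1 : ξ ^ 4 ≤ xm ^ 4 := pow_le_pow_left₀ (hε.le.trans hξ.1) hξ.2 4
        have h2 : ξ ^ 7 ≤ xm ^ 7 := pow_le_pow_left₀ (hε.le.trans hξ.1) hξ.2 7
        have h3 : z * ξ ^ 7 ≤ z0 * xm ^ 7 := by
          have : z ≤ z0 := by rw [hz0]; exact hz.2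
          exact mul_le_mul this h2 (pow_nonneg (hε.le.trans hξ.1) 7) hz0pos.le
        linarith)
      (by
        intro c hc ξ hξ z hz
        exact hh c hc ξ hξ z (by rw [hz0]; exact hz))
      (fun a ha => hP a (lt_of_lt_of_le hαpos ha.1))
      (hU α B s0 hαpos hα.2)
      (fun a ha => by obtain ⟨s1, h, _⟩ := o4 a ha; exact ⟨s1, h⟩)
      o5
    exact h8 V Q α B s0 ε xm κ Bm L C hF hT hαpos hα.2 hε hεxm hκ hL hC hE hlt
      (fun a ha => hpos a (hIocI a ha))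
      (fun a ha => by
        obtain ⟨s1, h, _⟩ := o4 a ha
        exact ⟨s1, h, hbd a ha s1 h⟩)
      hbd hloc

end Pool.Agent.W2helper26.LN
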