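import Pool.Agent.W2helper26.LN.P3a

/-!
# P3: reduction of the frozen statement to `MA`
-/

set_option autoImplicit false

namespace Pool.Agent.W2helper26.LN

open Set Pool.Agent.W2helper59.LN

theorem isT_unique {V : ℝ → ℝ → ℝ} {a T T' : ℝ} (h : IsT V a T) (h' : IsT V a T') : T = T' := by
  rcases lt_trichotomy T T' with hlt | he | hlt
  · have := h'.2.2 T ⟨h.1.le, hlt⟩
    rw [h.2.1] at this; exact absurd this (lt_irrefl _)
  · exact he
  · have := h.2.2 T' ⟨h'.1.le, hlt⟩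
    rw [h'.2.1] at this; exact absurd this (lt_irrefl _)

open Classical in
/-- the first zero as a function (junk value `0`) -/
noncomputable def TT (V : ℝ → ℝ → ℝ) (a : ℝ) : ℝ := if h : ∃ T, IsT V a T then h.choose else 0

theorem TT_spec {V : ℝ → ℝ → ℝ} {a : ℝ} (h : ∃ T, IsT V a T) : IsT V a (TT V a) := by
  unfold TT; rw [dif_pos h]; exact h.choose_spec

theorem TT_eq {V : ℝ → ℝ → ℝ} {a T : ℝ} (h : IsT V a T) : TT V a = T :=
  isT_unique (TT_spec ⟨T, h⟩) h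

theorem TT_cont {V : ℝ → ℝ → ℝ} (hT : TCont V) {b : ℝ} (hb : 0 < b) (h : ∃ T, IsT V b T) :
    ContinuousAt (TT V) b := by
  rw [Metric.continuousAt_iff]
  intro η hη
  obtain ⟨δ, hδ, H⟩ := hT b hb _ (TT_spec h) η hη
  refine ⟨δ, hδ, ?_⟩
  intro a ha
  rw [Real.dist_eq] at ha
  obtain ⟨_, Ta, hTa, hd⟩ := H a ha
  rw [Real.dist_eq, TT_eq hTa]
  exact hd

/-- component of the graph over an open interval of the zero set whose end points do not belong
to the zero set -/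
theorem component {V : ℝ → ℝ → ℝ} (hT : TCont V) (S : Set (ℝ × ℝ))
    (hS : ∀ l a : ℝ, (l, a) ∈ S ↔ 0 < l ∧ 0 < a ∧ IsT V a (Real.sqrt l))
    {lo hi β : ℝ} (hlo : 0 ≤ lo) (hβ : β ∈ Ioo lo hi) (hZ : ZOn V (Ioo lo hi))
    (h0 : lo = 0 ∨ ∀ T, ¬ IsT V lo T) (h1 : ∀ T, ¬ IsT V hi T) :
    (TT V β ^ 2, β) ∈ S ∧
    ∀ y : ℝ × ℝ, y ∈ connectedComponentIn S (TT V β ^ 2, β) ↔ y ∈ S ∧ y.2 ∈ Ioo lo hi := by
  have hsq : ∀ {l : ℝ} {a : ℝ}, 0 < l → IsT V a (Real.sqrt l) → TT V a ^ 2 = l := by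
    intro l a hl h
    rw [TT_eq h, Real.sq_sqrt hl.le]
  have hin : ∀ a ∈ Ioo lo hi, (TT V a ^ 2, a) ∈ S := by
    intro a ha
    have hs := TT_spec (hZ a ha)
    rw [hS]
    refine ⟨pow_pos hs.1 2, lt_of_le_of_lt hlo ha.1, ?_⟩
    rw [Real.sqrt_sq hs.1.le]; exact hs
  have hsub : (fun a => (TT V a ^ 2, a)) '' Ioo lo hi ⊆ S := by
    rintro _ ⟨a, ha, rfl⟩; exact hin a ha
  have hpre : IsPreconnected ((fun a => (TT V a ^ 2, a)) '' Ioo lo hi) := by
    refine isPreconnected_Ioo.image _ ?_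
    intro a ha
    refine ContinuousAt.continuousWithinAt ?_
    exact ((TT_cont hT (lt_of_le_of_lt hlo ha.1) (hZ a ha)).pow 2).prodMk continuousAt_id
  refine ⟨hin β hβ, ?_⟩
  intro y
  constructor
  · intro hy
    have hyS : y ∈ S := connectedComponentIn_subset _ _ hy
    refine ⟨hyS, ?_⟩
    set C := connectedComponentIn S (TT V β ^ 2, β) with hC
    have hCpre : IsPreconnected C := isPreconnected_connectedComponentIn
    have himg : IsPreconnected (Prod.snd '' C) := hCpre.image _ continuous_snd.continuousOn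
    have hord : OrdConnected (Prod.snd '' C) := himg.ordConnected
    have hβC : β ∈ Prod.snd '' C := ⟨_, mem_connectedComponentIn (hin β hβ), rfl⟩
    have hyC : y.2 ∈ Prod.snd '' C := ⟨y, hy, rfl⟩
    have hCS : ∀ c ∈ Prod.snd '' C, 0 < c ∧ ∃ T, IsT V c T := by
      rintro _ ⟨⟨l, c⟩, hc, rfl⟩
      have := (hS l c).1 (connectedComponentIn_subset _ _ hc)
      exact ⟨this.2.1, _, this.2.2⟩
    constructor
    · by_contra hcon
      push Not at hcon
      have hlomem : lo ∈ Prod.snd '' C := hord.out hyC hβC ⟨hcon, hβ.1.le⟩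
      obtain ⟨hl1, T, hl2⟩ := hCS lo hlomem
      rcases h0 with h0 | h0
      · rw [h0] at hl1; exact lt_irrefl _ hl1
      · exact h0 T hl2
    · by_contra hcon
      push Not at hcon
      have hhimem : hi ∈ Prod.snd '' C := hord.out hβC hyC ⟨hβ.2.le, hcon⟩
      obtain ⟨_, T, hl2⟩ := hCS hi hhimem
      exact h1 T hl2
  · rintro ⟨hyS, hy2⟩
    have hmem : y ∈ (fun a => (TT V a ^ 2, a)) '' Ioo lo hi := by
      refine ⟨y.2, hy2, ?_⟩
      have := (hS y.1 y.2).1 hyS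
      ext
      · exact hsq this.1 this.2.2
      · rfl
    exact (hpre.subset_connectedComponentIn ⟨β, hβ, rfl⟩ hsub) hmem

theorem sq_lt {x y : ℝ} (hx : 0 < x) (h : x < y) : x ^ 2 < y ^ 2 := by nlinarith

theorem p3_red : P3_red := by
  intro V Q hF hT hMA S hS0
  have hS := mem_iff hF S hS0
  obtain ⟨β1, α1, β2, α2, hβ1, h1, h2, h3, hZ1, hn1, hZ2, hn2, hD1, hI1, hD2, hI2⟩ := hMA
  have hα1 : 0 < α1 := hβ1.trans h1
  obtain ⟨m1, c1⟩ := component hT S hS le_rfl (β := β1) ⟨hβ1, h1⟩ hZ1 (Or.inl rfl) hn1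
  obtain ⟨m2, c2⟩ := component hT S hS hα1.le (β := β2) ⟨h2, h3⟩ hZ2 (Or.inr hn1) hn2
  refine ⟨_, m1, _, m2, ?_, ?_, ?_⟩
  · intro he
    have hx : (TT V β1 ^ 2, β1) ∈ connectedComponentIn S (TT V β1 ^ 2, β1) :=
      mem_connectedComponentIn m1
    rw [he] at hx
    have := ((c2 _).1 hx).2.1
    exact absurd this (not_lt.2 h1.le)
  · intro y hy hy1 hy2 z hz
    have hyS := (hS y.1 y.2).1 hy
    have hz2 : z.2 < α2 := by
      rcases hz with hz | hz
      · exact ((c1 _).1 hz).2.2.trans (h2.trans h3)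
      · exact ((c2 _).1 hz).2.2
    have hy3 : ¬ y.2 < α1 := fun h => hy1 ((c1 _).2 ⟨hy, hyS.2.1, h⟩)
    have hy4 : y.2 ≠ α1 := fun h => hn1 _ (h ▸ hyS.2.2)
    have hy5 : α1 < y.2 := lt_of_le_of_ne (not_lt.1 hy3) (Ne.symm hy4)
    have hy6 : ¬ y.2 < α2 := fun h => hy2 ((c2 _).2 ⟨hy, hy5, h⟩)
    linarith
  · have key : ∀ {lo hi β : ℝ}, β ∈ Ioo lo hi → 0 ≤ lo →
        (TT V β ^ 2, β) ∈ S →
        (∀ y : ℝ × ℝ, y ∈ connectedComponentIn S (TT V β ^ 2, β) ↔ y ∈ S ∧ y.2 ∈ Ioo lo hi) →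
        DecOn V (Ioc lo β) → IncOn V (Ico β hi) →
        ∃ t ∈ connectedComponentIn S (TT V β ^ 2, β),
            (∀ y ∈ connectedComponentIn S (TT V β ^ 2, β),
              ∀ z ∈ connectedComponentIn S (TT V β ^ 2, β),
              y.2 < z.2 → z.2 ≤ t.2 → z.1 < y.1) ∧
            (∀ y ∈ connectedComponentIn S (TT V β ^ 2, β),
              ∀ z ∈ connectedComponentIn S (TT V β ^ 2, β),
              y.2 < z.2 → t.2 ≤ y.2 → y.1 < z.1) := by
      intro lo hi β hβ hlo hm hc hD hI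
      refine ⟨_, mem_connectedComponentIn hm, ?_, ?_⟩
      · intro y hy z hz hyz hzt
        have hy' := (hc y).1 hy
        have hz' := (hc z).1 hz
        have hyS := (hS y.1 y.2).1 hy'.1
        have hzS := (hS z.1 z.2).1 hz'.1
        have := hD y.2 ⟨hy'.2.1, hyz.le.trans hzt⟩ z.2 ⟨hz'.2.1, hzt⟩ hyz _ _ hyS.2.2 hzS.2.2
        exact (Real.sqrt_lt_sqrt_iff hzS.1.le).1 this
      · intro y hy z hz hyz hty
        have hy' := (hc y).1 hy
        have hz' := (hc z).1 hz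
        have hyS := (hS y.1 y.2).1 hy'.1
        have hzS := (hS z.1 z.2).1 hz'.1
        have := hI y.2 ⟨hty, hy'.2.2⟩ z.2 ⟨hty.trans hyz.le, hz'.2.2⟩ hyz _ _ hyS.2.2 hzS.2.2
        exact (Real.sqrt_lt_sqrt_iff hyS.1.le).1 this
    intro x hx
    rcases hx with rfl | hx
    · exact key ⟨hβ1, h1⟩ le_rfl m1 c1 hD1 hI1
    · rw [mem_singleton_iff] at hx
      subst hx
      exact key ⟨h2, h3⟩ hα1.le m2 c2 hD2 hI2

end Pool.Agent.W2helper26.LN
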