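import Mathlib
import Pool.Agent.W2helper59.LN.Eng

/-!
# S03669, pieces S2 and S3 of the validated integrator: calculus of the approximate solution, tube
inequality
-/

set_option autoImplicit false

namespace Pool.Agent.W2helper26.LN

open Set Pool.Agent.W2helper59.LN

section
variable {A : Type*} [CommRing A]

theorem ev1_smulL (d : A) (c : ℤ) (l : List ℤ) : ev1 d (smulL c l) = c * ev1 d l := by
  induction l with
  | nil => simp [smulL, ev1]
  | cons a l ih => simp only [smulL, ev1, ih]; push_cast; ring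

theorem ev2_dTaux (t d : A) (l : List (List ℤ)) : ∀ i : ℤ,
    ev2 t d (dTaux i l) = i * ev2 t d l + t * ev2 t d (dTau l) := by
  induction l with
  | nil => intro i; simp [dTaux, dTau, ev2]
  | cons r l ih =>
    intro i
    have h1 : dTau (r :: l) = dTaux 1 l := rfl
    rw [h1, ih 1]
    simp only [dTaux, ev2, ev1_smulL, ih (i + 1)]
    push_cast
    ring

end

theorem ev2_hasDerivAt (d : ℂ) (L : List (List ℤ)) : ∀ t : ℂ,
    HasDerivAt (fun x : ℂ => ev2 x d L) (ev2 t d (dTau L)) t := by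
  induction L with
  | nil =>
    intro t
    simpa [ev2, dTau, dTaux] using hasDerivAt_const t (0 : ℂ)
  | cons r l ih =>
    intro t
    have h1 : dTau (r :: l) = dTaux 1 l := rfl
    have h2 := ((hasDerivAt_id t).mul (ih t)).const_add (ev1 d r)
    refine h2.congr_deriv ?_
    rw [h1, ev2_dTaux]
    simp

theorem ev2_comp (d : ℂ) (L : List (List ℤ)) (c h t : ℝ) :
    HasDerivAt (fun x : ℝ => ev2 (((x - c) / h : ℝ) : ℂ) d L)
      (((1 / h : ℝ) : ℂ) * ev2 (((t - c) / h : ℝ) : ℂ) d (dTau L)) t := by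
  have h1 : HasDerivAt (fun x : ℝ => (((x - c) / h : ℝ) : ℂ)) ((1 / h : ℝ) : ℂ) t := by
    have h2 : HasDerivAt (fun x : ℝ => (x - c) / h) (1 / h) t :=
      ((hasDerivAt_id t).sub_const c).div_const h
    exact h2.ofReal_comp
  have h3 := (ev2_hasDerivAt d L (((t - c) / h : ℝ) : ℂ)).comp_of_eq t h1 rfl
  refine h3.congr_deriv ?_
  ring

theorem wS_hasDerivAt (hd : Hdr) (s : StepD) (δ : ℂ) (t : ℝ) :
    HasDerivAt (wS hd s δ)
      (((1 / (s.h : ℝ) : ℝ) : ℂ) *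
        ev2 (((t - (s.c : ℝ)) / (s.h : ℝ) : ℝ) : ℂ) δ (dTau (s.L hd)) / 2 ^ s.M) t :=
  (ev2_comp δ (s.L hd) (s.c : ℝ) (s.h : ℝ) t).div_const _

theorem rS_hasDerivAt (hd : Hdr) (s : StepD) (δ : ℂ) (hh : (s.h : ℝ) ≠ 0) (t : ℝ) :
    HasDerivAt (rS hd s δ) (rS' hd s δ t) t := by
  have h1 := wS_hasDerivAt hd s δ t
  have h2 := (ev2_comp δ (dTau (s.L hd)) (s.c : ℝ) (s.h : ℝ) t).div_const ((2 : ℂ) ^ s.M)
  have h3 : HasDerivAt (fun x : ℝ => (((x / (s.h : ℝ) : ℝ)) : ℂ)) ((1 / (s.h : ℝ) : ℝ) : ℂ) t := by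
    have h4 : HasDerivAt (fun x : ℝ => x / (s.h : ℝ)) (1 / (s.h : ℝ)) t :=
      (hasDerivAt_id t).div_const _
    exact h4.ofReal_comp
  have h5 := h1.add (h3.mul h2)
  refine h5.congr_deriv ?_
  unfold rS'
  have h6 : ((s.h : ℝ) : ℂ) ≠ 0 := by exact_mod_cast hh
  push_cast
  field_simp
  ring

theorem rS_eq (hd : Hdr) (s : StepD) (δ : ℂ) (t : ℝ) :
    HasDerivAt (fun x : ℝ => x • wS hd s δ x) (rS hd s δ t) t := by
  have h1 := wS_hasDerivAt hd s δ t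
  have h2 := (hasDerivAt_id t).smul h1
  refine h2.congr_deriv ?_
  unfold rS
  simp only [id, one_smul, Complex.real_smul]
  push_cast
  ring

theorem a_nonneg (s : StepD) (h : s.H ≤ s.C) : (0 : ℝ) ≤ (s.a : ℝ) := by
  have h1 : (0 : ℚ) ≤ s.a := by
    unfold StepD.a
    have : (s.H : ℚ) ≤ s.C := by exact_mod_cast h
    apply div_nonneg (by linarith) (by positivity)
  exact_mod_cast h1

theorem h_pos (s : StepD) (h : 1 ≤ s.H) : (0 : ℝ) < (s.h : ℝ) := by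
  have h1 : (0 : ℚ) < s.h := by
    unfold StepD.h
    have : (1 : ℚ) ≤ s.H := by exact_mod_cast h
    apply div_pos (by linarith) (by positivity)
  exact_mod_cast h1

/-- **S2** -/
theorem s2_approx : S2_approx := by
  intro hd s δ hH hC
  have hh := h_pos s hH
  refine ⟨fun t _ => (wS_hasDerivAt hd s δ t).continuousAt.continuousWithinAt,
    fun t _ => (rS_hasDerivAt hd s δ hh.ne' t).continuousAt.continuousWithinAt,
    fun t _ => rS_eq hd s δ t, fun t ht => ?_⟩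
  have ht0 : 0 < t := lt_of_le_of_lt (a_nonneg s hC) ht.1
  refine (rS_hasDerivAt hd s δ hh.ne' t).congr_deriv ?_
  have h6 : (t : ℂ) ≠ 0 := by exact_mod_cast ht0.ne'
  rw [Complex.real_smul]
  field_simp
  try simp

/-! ## S3 -/

/-- `a` approximates `A`, with the majorant `α` -/
def Maj (a A : ℂ) (α : ℝ) : Prop := ‖a - A‖ ≤ α - ‖A‖

theorem Maj.mul {a A b B : ℂ} {α β : ℝ} (h1 : Maj a A α) (h2 : Maj b B β) :
    Maj (a * b) (A * B) (α * β) := by
  unfold Maj at *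
  have e : a * b - A * B = (a - A) * (b - B) + ((a - A) * B + A * (b - B)) := by ring
  rw [e, norm_mul]
  have n1 := norm_nonneg (a - A)
  have n2 := norm_nonneg (b - B)
  have n3 := norm_nonneg A
  have n4 := norm_nonneg B
  calc ‖(a - A) * (b - B) + ((a - A) * B + A * (b - B))‖
      ≤ ‖(a - A) * (b - B)‖ + (‖(a - A) * B‖ + ‖A * (b - B)‖) :=
        (norm_add_le _ _).trans (by gcongr; exact norm_add_le _ _)
    _ = ‖a - A‖ * ‖b - B‖ + (‖a - A‖ * ‖B‖ + ‖A‖ * ‖b - B‖) := by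
        simp only [norm_mul]
    _ ≤ (α - ‖A‖) * (β - ‖B‖) + ((α - ‖A‖) * ‖B‖ + ‖A‖ * (β - ‖B‖)) := by
        gcongr
        linarith
    _ = α * β - ‖A‖ * ‖B‖ := by ring

theorem Maj.pow {a A : ℂ} {α : ℝ} (h : Maj a A α) (n : ℕ) : Maj (a ^ n) (A ^ n) (α ^ n) := by
  induction n with
  | zero => simp [Maj]
  | succ n ih => rw [pow_succ, pow_succ, pow_succ]; exact ih.mul h

theorem Maj.sum {ι : Type*} (S : Finset ι) (a : ι → ℂ) (A : ℂ) (α : ℝ)
    (h : ∀ i ∈ S, Maj (a i) A α) : ‖∑ i ∈ S, a i - S.card * A‖ ≤ S.card * (α - ‖A‖) := by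
  have e : ∑ i ∈ S, a i - S.card * A = ∑ i ∈ S, (a i - A) := by
    rw [Finset.sum_sub_distrib, Finset.sum_const, nsmul_eq_mul]
  rw [e]
  refine (norm_sum_le _ _).trans ?_
  refine (Finset.sum_le_sum h).trans ?_
  rw [Finset.sum_const, nsmul_eq_mul]

/-- **S3** -/
theorem s3_tube : S3_tube := by
  intro v0 ρ B0 Bm γ B z w hρ hB0 hB hz hw
  have hz' : Maj z v0 (|v0| + ρ) := by
    unfold Maj
    rw [Complex.norm_real, Real.norm_eq_abs]
    linarith
  have hw' : Maj w v0 (|v0| + ρ) := by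
    unfold Maj
    rw [Complex.norm_real, Real.norm_eq_abs]
    linarith
  have hB' : Maj B B0 Bm := by
    unfold Maj
    rw [Complex.norm_real, Real.norm_eq_abs, abs_of_nonneg hB0]
    exact hB
  have mon : ∀ n : ℕ, ∀ i ∈ Finset.range n,
      Maj (z ^ i * w ^ (n - 1 - i)) ((v0 : ℂ) ^ (n - 1)) ((|v0| + ρ) ^ (n - 1)) := by
    intro n i hi
    rw [Finset.mem_range] at hi
    have e : n - 1 = i + (n - 1 - i) := by omega
    have h := (hz'.pow i).mul (hw'.pow (n - 1 - i))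
    rw [← pow_add, ← pow_add, ← e] at h
    exact h
  have s4 := Maj.sum (Finset.range 4) (fun i => z ^ i * w ^ (4 - 1 - i)) _ _ (mon 4)
  have s7 := Maj.sum (Finset.range 7) (fun i => B * (z ^ i * w ^ (7 - 1 - i))) _ _
    (fun i hi => hB'.mul (mon 7 i hi))
  rw [Finset.card_range] at s4 s7
  rw [← Finset.mul_sum] at s7
  have g4 : (∑ i ∈ Finset.range 4, z ^ i * w ^ (4 - 1 - i)) * (z - w) = z ^ 4 - w ^ 4 :=
    (Commute.all z w).geom_sum₂_mul 4
  have g7 : (∑ i ∈ Finset.range 7, z ^ i * w ^ (7 - 1 - i)) * (z - w) = z ^ 7 - w ^ 7 :=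
    (Commute.all z w).geom_sum₂_mul 7
  set P4 := ∑ i ∈ Finset.range 4, z ^ i * w ^ (4 - 1 - i) with hP4
  set P7 := ∑ i ∈ Finset.range 7, z ^ i * w ^ (7 - 1 - i) with hP7
  have e : (z ^ 4 + B * z ^ 7) - (w ^ 4 + B * w ^ 7) - (γ : ℂ) * (z - w) =
      (P4 + B * P7 - γ) * (z - w) := by
    linear_combination -g4 - B * g7
  rw [e, norm_mul]
  apply mul_le_mul_of_nonneg_right _ (norm_nonneg _)
  have e2 : P4 + B * P7 - γ = ((4 * v0 ^ 3 + 7 * B0 * v0 ^ 6 - γ : ℝ) : ℂ) +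
      (P4 - ((4 : ℕ) : ℂ) * (v0 : ℂ) ^ (4 - 1)) +
      (B * P7 - ((7 : ℕ) : ℂ) * ((B0 : ℂ) * (v0 : ℂ) ^ (7 - 1))) := by
    push_cast
    ring
  rw [e2]
  refine (norm_add₃_le).trans ?_
  have n1 : ‖(v0 : ℂ) ^ (4 - 1)‖ = |v0| ^ 3 := by
    rw [norm_pow, Complex.norm_real, Real.norm_eq_abs]
  have n2 : ‖(B0 : ℂ) * (v0 : ℂ) ^ (7 - 1)‖ = B0 * |v0| ^ 6 := by
    rw [norm_mul, norm_pow, Complex.norm_real, Complex.norm_real, Real.norm_eq_abs,
      Real.norm_eq_abs, abs_of_nonneg hB0]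
  rw [n1] at s4
  rw [n2] at s7
  have n3 : ‖((4 * v0 ^ 3 + 7 * B0 * v0 ^ 6 - γ : ℝ) : ℂ)‖ =
      |4 * v0 ^ 3 + 7 * B0 * v0 ^ 6 - γ| := by
    rw [Complex.norm_real, Real.norm_eq_abs]
  rw [n3]
  push_cast at s4 s7 ⊢
  linarith

end Pool.Agent.W2helper26.LN
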