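import Mathlib
import Pool.Agent.W2helper59.LN.Eng
import Pool.Agent.W2helper26.LN.S23
import Pool.Agent.W2helper95.LN.P4

/-!
# S03669, piece S4 of the validated integrator: one validated step
-/

set_option autoImplicit false

namespace Pool.Agent.W2helper26.LN

open Set Pool.Agent.W2helper59.LN

/-! ## norms of the polynomials -/

theorem ev1_norm (d : ℂ) (hd : ‖d‖ ≤ 1) (l : List ℤ) : ‖ev1 d l‖ ≤ (n1 l : ℝ) := by
  induction l with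
  | nil => simp [ev1, n1]
  | cons a l ih =>
    simp only [ev1, n1]
    push_cast
    refine (norm_add_le _ _).trans ?_
    rw [norm_mul]
    have h1 : ‖(a : ℂ)‖ = |(a : ℝ)| := by rw [Complex.norm_intCast]
    have h3 : ‖d‖ * ‖ev1 d l‖ ≤ 1 * (n1 l : ℝ) :=
      mul_le_mul hd ih (norm_nonneg _) zero_le_one
    have h4 : ((a.natAbs : ℕ) : ℝ) = |(a : ℝ)| := by
      rw [Nat.cast_natAbs]
      push_cast
      rfl
    simp only [Nat.cast_natAbs, Int.cast_abs] at *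
    linarith [h1.le]

theorem ev2_norm (t d : ℂ) (ht : ‖t‖ ≤ 1) (hd : ‖d‖ ≤ 1) (L : List (List ℤ)) :
    ‖ev2 t d L‖ ≤ (n2 L : ℝ) := by
  induction L with
  | nil => simp [ev2, n2]
  | cons r l ih =>
    simp only [ev2, n2]
    push_cast
    refine (norm_add_le _ _).trans ?_
    rw [norm_mul]
    have h2 := ev1_norm d hd r
    have h3 : ‖t‖ * ‖ev2 t d l‖ ≤ 1 * (n2 l : ℝ) :=
      mul_le_mul ht ih (norm_nonneg _) zero_le_one
    linarith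

theorem ev1_sub (d : ℂ) (hd : ‖d‖ ≤ 1) (l : List ℤ) :
    ‖ev1 d l - (hd1 l : ℂ)‖ ≤ (n1 l : ℝ) - |(hd1 l : ℝ)| := by
  cases l with
  | nil => simp [ev1, n1, hd1]
  | cons a l =>
    have e : ev1 d (a :: l) - (hd1 (a :: l) : ℂ) = d * ev1 d l := by
      simp [ev1, hd1]
    rw [e, norm_mul]
    have h3 : ‖d‖ * ‖ev1 d l‖ ≤ 1 * (n1 l : ℝ) :=
      mul_le_mul hd (ev1_norm d hd l) (norm_nonneg _) zero_le_one
    have h5 : (hd1 (a :: l) : ℤ) = a := rfl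
    rw [h5]
    simp only [n1]
    push_cast
    simp only [Nat.cast_natAbs, Int.cast_abs]
    linarith

theorem ev2_sub (t d : ℂ) (ht : ‖t‖ ≤ 1) (hd : ‖d‖ ≤ 1) (L : List (List ℤ)) :
    ‖ev2 t d L - (hd2 L : ℂ)‖ ≤ (n2 L : ℝ) - |(hd2 L : ℝ)| := by
  cases L with
  | nil => simp [ev2, n2, hd2, hd1]
  | cons r l =>
    have e : ev2 t d (r :: l) - (hd2 (r :: l) : ℂ) = (ev1 d r - (hd1 r : ℂ)) + t * ev2 t d l := by
      have : hd2 (r :: l) = hd1 r := rfl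
      rw [this]
      simp only [ev2]
      ring
    rw [e]
    have h3 : ‖t‖ * ‖ev2 t d l‖ ≤ 1 * (n2 l : ℝ) :=
      mul_le_mul ht (ev2_norm t d ht hd l) (norm_nonneg _) zero_le_one
    have h5 : (hd2 (r :: l) : ℤ) = hd1 r := rfl
    rw [h5]
    simp only [n2]
    push_cast
    have h6 := ev1_sub d hd r
    refine (norm_add_le _ _).trans ?_
    rw [norm_mul]
    linarith

/-! ## the facts of the check -/

/-- the inequalities of `stepOK` over the reals -/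
structure Facts (hd : Hdr) (s : StepD) : Prop where
  hH : 1 ≤ s.H
  hC : s.H ≤ s.C
  g0 : 0 < (sc s.g : ℝ)
  r0 : 0 < (sc s.rho : ℝ)
  b2 : 2 ≤ hd.b
  n0 : 1 ≤ hd.n
  k0 : 1 ≤ hd.k
  cr : crude hd s (n2 (s.L hd)) < 2 ^ (hd.b - 1)
  b0 : 0 ≤ (hd.b0 : ℝ)
  x1 : (theta hd s (s.L hd) : ℝ) * (s.h : ℝ) / (sc s.g : ℝ) < 1
  m1 : (sc s.mu0 : ℝ) + 2 * (s.h : ℝ) * (epsS hd s (s.L hd) : ℝ) ≤
    (sc s.mu1 : ℝ) * (1 - (theta hd s (s.L hd) : ℝ) * (s.h : ℝ) / (sc s.g : ℝ))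
  tube : (0 < (s.a : ℝ) ∧ (sc s.mu1 : ℝ) < (sc s.g : ℝ) * (s.a : ℝ) * (sc s.rho : ℝ)) ∨
    ((s.a : ℝ) = 0 ∧ (sc s.mu1 : ℝ) < (sc s.rho : ℝ))
  R8 : (v0 s (s.L hd) : ℝ) + (vV s (s.L hd) : ℝ) + (sc s.rho : ℝ) ≤ 8
  low : -1 ≤ (v00 s (s.L hd) : ℝ) - (vV s (s.L hd) : ℝ) - (sc s.rho : ℝ)
  n1 : (sc s.nu0 : ℝ) + 2 * (s.h : ℝ) * ((s.bb : ℝ) *
      ((v0 s (s.L hd) : ℝ) + (vV s (s.L hd) : ℝ) + (sc s.rho : ℝ)) ^ 7) ≤
    (sc s.nu1 : ℝ) * (1 - (theta hd s (s.L hd) : ℝ) * (s.h : ℝ) / (sc s.g : ℝ))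

theorem sc_pos {n : ℕ} (h : 1 ≤ n) : 0 < (sc n : ℝ) := by
  have h1 : (0 : ℚ) < sc n := by
    unfold sc
    have : (1 : ℚ) ≤ n := by exact_mod_cast h
    positivity
  exact_mod_cast h1

theorem sc_nonneg (n : ℕ) : 0 ≤ (sc n : ℝ) := by
  have h1 : (0 : ℚ) ≤ sc n := by
    unfold sc
    positivity
  exact_mod_cast h1

theorem facts {hd : Hdr} {s : StepD} (h : stepOK hd s = true) : Facts hd s := by
  simp only [stepOK, Bool.and_eq_true, decide_eq_true_eq, Nat.ble_eq, Nat.blt_eq] at h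
  obtain ⟨⟨⟨⟨⟨⟨⟨⟨⟨⟨⟨⟨⟨⟨hH, hC⟩, hg⟩, hr⟩, hb⟩, hn⟩, hk⟩, hcr⟩, hb0⟩, hx⟩, hm⟩, htube⟩, hR⟩, hlow⟩, hn1⟩ := h
  have cst : ∀ x y : ℚ, x ≤ y → (x : ℝ) ≤ (y : ℝ) := fun x y h => by exact_mod_cast h
  refine ⟨hH, hC, sc_pos hg, sc_pos hr, hb, hn, hk, hcr, ?_, ?_, ?_, ?_, ?_, ?_, ?_⟩
  · exact_mod_cast hb0
  · exact_mod_cast hx
  · have := cst _ _ hm
    push_cast at this
    exact this
  · by_cases hCH : s.C = s.H
    · right
      rw [if_pos hCH, decide_eq_true_eq] at htube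
      constructor
      · unfold StepD.a
        rw [hCH]
        simp
      · unfold sc
        push_cast
        have : (s.mu1 : ℝ) < s.rho := by exact_mod_cast htube
        apply div_lt_div_of_pos_right this (by positivity)
    · left
      rw [if_neg hCH, decide_eq_true_eq] at htube
      constructor
      · have h1 : (0 : ℚ) < s.a := by
          unfold StepD.a
          have : (s.H : ℚ) < s.C := by exact_mod_cast lt_of_le_of_ne hC (Ne.symm hCH)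
          apply div_pos (by linarith) (by positivity)
        exact_mod_cast h1
      · exact_mod_cast htube
  · exact_mod_cast hR
  · exact_mod_cast hlow
  · have := cst _ _ hn1
    push_cast at this
    exact this

variable {hd : Hdr} {s : StepD}

theorem v00_abs (hd : Hdr) (s : StepD) :
    (v0 s (s.L hd) : ℝ) = |(v00 s (s.L hd) : ℝ)| := by
  unfold v0 v00
  push_cast
  rw [abs_div, abs_of_pos (by positivity : (0 : ℝ) < 2 ^ s.M)]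
  simp only [Nat.cast_natAbs, Int.cast_abs]

theorem vV_eq (hd : Hdr) (s : StepD) :
    (vV s (s.L hd) : ℝ) = ((n2 (s.L hd) : ℝ) - |(hd2 (s.L hd) : ℝ)|) / 2 ^ s.M := by
  unfold vV
  push_cast
  simp only [Nat.cast_natAbs, Int.cast_abs]

theorem vV_nonneg (hd : Hdr) (s : StepD) : 0 ≤ (vV s (s.L hd) : ℝ) := by
  rw [vV_eq]
  have h := ev2_sub 0 0 (by simp) (by simp) (s.L hd)
  have h2 := (norm_nonneg _).trans h
  positivity

theorem a_eq (s : StepD) : (s.a : ℝ) = (s.c : ℝ) - (s.h : ℝ) := by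
  unfold StepD.a StepD.c StepD.h
  push_cast
  ring

theorem b_eq (s : StepD) : (s.bb : ℝ) = (s.c : ℝ) + (s.h : ℝ) := by
  unfold StepD.bb StepD.c StepD.h
  push_cast
  ring

theorem tau_norm (hH : 1 ≤ s.H) {t : ℝ} (ht : t ∈ Icc (s.a : ℝ) (s.bb : ℝ)) :
    ‖(((t - (s.c : ℝ)) / (s.h : ℝ) : ℝ) : ℂ)‖ ≤ 1 := by
  rw [Complex.norm_real, Real.norm_eq_abs, abs_div, abs_of_pos (h_pos s hH),
    div_le_one (h_pos s hH), abs_le]
  rw [a_eq, b_eq] at ht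
  constructor <;> linarith [ht.1, ht.2]

theorem w_sub (hH : 1 ≤ s.H) {t : ℝ} (ht : t ∈ Icc (s.a : ℝ) (s.bb : ℝ)) {δ : ℂ} (hδ : ‖δ‖ ≤ 1) :
    ‖wS hd s δ t - ((v00 s (s.L hd) : ℝ) : ℂ)‖ ≤ (vV s (s.L hd) : ℝ) := by
  have h1 := ev2_sub _ δ (tau_norm hH ht) hδ (s.L hd)
  have e : wS hd s δ t - ((v00 s (s.L hd) : ℝ) : ℂ) =
      (ev2 (((t - (s.c : ℝ)) / (s.h : ℝ) : ℝ) : ℂ) δ (s.L hd) - (hd2 (s.L hd) : ℂ)) / 2 ^ s.M := by
    unfold wS v00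
    push_cast
    ring
  rw [e, norm_div, vV_eq, norm_pow]
  have h2 : ‖(2 : ℂ)‖ = 2 := by simp
  rw [h2]
  gcongr

theorem w_norm (hH : 1 ≤ s.H) {t : ℝ} (ht : t ∈ Icc (s.a : ℝ) (s.bb : ℝ)) {δ : ℂ} (hδ : ‖δ‖ ≤ 1) :
    ‖wS hd s δ t‖ ≤ (v0 s (s.L hd) : ℝ) + (vV s (s.L hd) : ℝ) := by
  have h1 := w_sub (hd := hd) hH ht hδ
  have h2 : wS hd s δ t = ((v00 s (s.L hd) : ℝ) : ℂ) +
    (wS hd s δ t - ((v00 s (s.L hd) : ℝ) : ℂ)) := by ring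
  rw [h2, v00_abs]
  refine (norm_add_le _ _).trans ?_
  rw [Complex.norm_real, Real.norm_eq_abs]
  linarith

theorem bC_sub {Bv : ℝ} (hB : BAdm hd Bv) {δ : ℂ} (hδ : ‖δ‖ ≤ 1) :
    ‖bC hd Bv δ - ((hd.b0 : ℝ) : ℂ)‖ ≤ (hd.bm : ℝ) - (hd.b0 : ℝ) := by
  have e : bC hd Bv δ - ((hd.b0 : ℝ) : ℂ) =
      ((Bv - (hd.b0 : ℝ) : ℝ) : ℂ) + (hd.B1 : ℂ) / 2 ^ hd.e * δ := by
    unfold bC
    push_cast
    ring
  have e2 : (hd.bm : ℝ) - (hd.b0 : ℝ) = |(hd.B1 : ℝ)| / 2 ^ hd.e + (sc hd.bt : ℝ) := by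
    unfold Hdr.bm Hdr.b0
    push_cast
    simp only [Nat.cast_natAbs, Int.cast_abs]
    ring
  rw [e, e2]
  refine (norm_add_le _ _).trans ?_
  rw [Complex.norm_real, Real.norm_eq_abs, norm_mul, norm_div, norm_pow]
  have h2 : ‖(2 : ℂ)‖ = 2 := by simp
  have h3 : ‖(hd.B1 : ℂ)‖ = |(hd.B1 : ℝ)| := by rw [Complex.norm_intCast]
  rw [h2, h3]
  have h4 : |(hd.B1 : ℝ)| / 2 ^ hd.e * ‖δ‖ ≤ |(hd.B1 : ℝ)| / 2 ^ hd.e * 1 := by
    gcongr
  have h5 : |Bv - (hd.b0 : ℝ)| ≤ (sc hd.bt : ℝ) := hB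
  linarith

theorem qabs_cast (x : ℚ) : ((qabs x : ℚ) : ℝ) = |(x : ℝ)| := by
  unfold qabs
  split_ifs with h
  · rw [abs_of_nonneg]; exact_mod_cast h
  · push_cast
    rw [abs_of_neg]
    push Not at h
    exact_mod_cast h

theorem theta_cast (hd : Hdr) (s : StepD) : (theta hd s (s.L hd) : ℝ) =
    |4 * (v00 s (s.L hd) : ℝ) ^ 3 + 7 * (hd.b0 : ℝ) * (v00 s (s.L hd) : ℝ) ^ 6 -
        (sc s.g : ℝ) ^ 2| +
      4 * ((|(v00 s (s.L hd) : ℝ)| + ((vV s (s.L hd) : ℝ) + (sc s.rho : ℝ))) ^ 3 -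
        |(v00 s (s.L hd) : ℝ)| ^ 3) +
      7 * ((hd.bm : ℝ) * (|(v00 s (s.L hd) : ℝ)| + ((vV s (s.L hd) : ℝ) + (sc s.rho : ℝ))) ^ 6 -
        (hd.b0 : ℝ) * |(v00 s (s.L hd) : ℝ)| ^ 6) := by
  unfold theta
  push_cast
  rw [qabs_cast]
  push_cast
  rw [v00_abs]
  ring

theorem bm_ge (hd : Hdr) : (hd.b0 : ℝ) ≤ (hd.bm : ℝ) := by
  unfold Hdr.bm Hdr.b0
  push_cast
  have h1 := sc_nonneg hd.bt
  have h2 : (0 : ℝ) ≤ (hd.B1.natAbs : ℝ) / 2 ^ hd.e := by positivity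
  simp only [Nat.cast_natAbs, Int.cast_abs] at *
  linarith

theorem theta_nonneg (hF : Facts hd s) : 0 ≤ (theta hd s (s.L hd) : ℝ) := by
  rw [theta_cast]
  have h1 := vV_nonneg hd s
  have h2 := hF.r0
  have h3 := bm_ge hd
  have h4 := hF.b0
  set w := |(v00 s (s.L hd) : ℝ)| with hw
  have h5 : 0 ≤ w := abs_nonneg _
  set p := (vV s (s.L hd) : ℝ) + (sc s.rho : ℝ) with hp
  have h6 : 0 ≤ p := by positivity
  have h7 : w ^ 3 ≤ (w + p) ^ 3 := by gcongr; linarith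
  have h8 : w ^ 6 ≤ (w + p) ^ 6 := by gcongr; linarith
  have h9 : (hd.b0 : ℝ) * w ^ 6 ≤ (hd.bm : ℝ) * (w + p) ^ 6 := by
    apply mul_le_mul h3 h8 (by positivity) (by linarith)
  have h10 := abs_nonneg (4 * (v00 s (s.L hd) : ℝ) ^ 3 +
    7 * (hd.b0 : ℝ) * (v00 s (s.L hd) : ℝ) ^ 6 - (sc s.g : ℝ) ^ 2)
  linarith

theorem eps_nonneg (hd : Hdr) (s : StepD) (hH : 1 ≤ s.H) : 0 ≤ (epsS hd s (s.L hd) : ℝ) := by
  unfold epsS
  push_cast
  have h1 := sc_nonneg hd.bt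
  have h2 := vV_nonneg hd s
  have h3 : 0 ≤ (v0 s (s.L hd) : ℝ) := by rw [v00_abs]; positivity
  have h4 : (0 : ℝ) ≤ (s.bb : ℝ) := by
    have : (0 : ℚ) ≤ s.bb := by unfold StepD.bb; positivity
    exact_mod_cast this
  positivity

/-- the tube: all the facts about a point near the approximate solution -/
theorem sq8 {z : ℂ} (hz : ‖z‖ ≤ 8) : sq 8 z = z := by
  have h1 := (Complex.abs_re_le_norm z).trans hz
  have h2 := (Complex.abs_im_le_norm z).trans hz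
  rw [abs_le] at h1 h2
  apply Complex.ext
  · show max (-8) (min 8 z.re) = z.re
    rw [min_eq_right h1.2, max_eq_right h1.1]
  · show max (-8) (min 8 z.im) = z.im
    rw [min_eq_right h2.2, max_eq_right h2.1]

theorem near {z : ℂ} (hF : Facts hd s) {t : ℝ} (ht : t ∈ Icc (s.a : ℝ) (s.bb : ℝ)) {δ : ℂ}
    (hδ : ‖δ‖ ≤ 1) (hz : ‖z - wS hd s δ t‖ ≤ (sc s.rho : ℝ)) :
    ‖z - ((v00 s (s.L hd) : ℝ) : ℂ)‖ ≤ (vV s (s.L hd) : ℝ) + (sc s.rho : ℝ) := by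
  have h1 := w_sub (hd := hd) hF.hH ht hδ
  have e : z - ((v00 s (s.L hd) : ℝ) : ℂ) =
    (z - wS hd s δ t) + (wS hd s δ t - ((v00 s (s.L hd) : ℝ) : ℂ)) := by ring
  rw [e]
  refine (norm_add_le _ _).trans ?_
  linarith

theorem near_norm {z : ℂ} (hF : Facts hd s)
    (hz : ‖z - ((v00 s (s.L hd) : ℝ) : ℂ)‖ ≤ (vV s (s.L hd) : ℝ) + (sc s.rho : ℝ)) :
    ‖z‖ ≤ (v0 s (s.L hd) : ℝ) + (vV s (s.L hd) : ℝ) + (sc s.rho : ℝ) ∧ ‖z‖ ≤ 8 ∧ -1 ≤ z.re := by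
  have h2 : ‖z‖ ≤ (v0 s (s.L hd) : ℝ) + (vV s (s.L hd) : ℝ) + (sc s.rho : ℝ) := by
    have e : z = ((v00 s (s.L hd) : ℝ) : ℂ) + (z - ((v00 s (s.L hd) : ℝ) : ℂ)) := by ring
    rw [e, v00_abs]
    refine (norm_add_le _ _).trans ?_
    rw [Complex.norm_real, Real.norm_eq_abs]
    linarith
  refine ⟨h2, h2.trans hF.R8, ?_⟩
  have h3 := (Complex.abs_re_le_norm (z - ((v00 s (s.L hd) : ℝ) : ℂ))).trans hz
  rw [abs_le] at h3
  have h4 : (z - ((v00 s (s.L hd) : ℝ) : ℂ)).re = z.re - (v00 s (s.L hd) : ℝ) := by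
    simp
  rw [h4] at h3
  have := hF.low
  linarith [h3.1]

/-- the defect of the approximate solution -/
theorem defect (hS1 : S1_defect) (hF : Facts hd s) {Bv : ℝ} (hB : BAdm hd Bv) {t : ℝ}
    (ht : t ∈ Icc (s.a : ℝ) (s.bb : ℝ)) {δ : ℂ} (hδ : ‖δ‖ ≤ 1) :
    ‖(t : ℂ) * ((wS hd s δ t) ^ 4 + bC hd Bv δ * (wS hd s δ t) ^ 7) + rS' hd s δ t‖ ≤
      (epsS hd s (s.L hd) : ℝ) := by
  have hh := h_pos s hF.hH
  have hHr : (0 : ℝ) < (s.H : ℝ) := by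
    have := hF.hH
    exact_mod_cast this
  have hHc : (s.H : ℂ) ≠ 0 := by
    have := hF.hH
    exact_mod_cast (by omega : s.H ≠ 0)
  set τ : ℂ := (((t - (s.c : ℝ)) / (s.h : ℝ) : ℝ) : ℂ) with hτ
  have hS := hS1 hd s τ δ (tau_norm hF.hH ht) hδ hF.b2 hF.n0 hF.k0 hF.cr
  -- the time
  have htt : (t : ℂ) = ((s.C : ℂ) + (s.H : ℂ) * τ) / 2 ^ s.mm := by
    rw [hτ]
    have h1 : t = (s.c : ℝ) + (s.h : ℝ) * ((t - (s.c : ℝ)) / (s.h : ℝ)) := by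
      field_simp
      ring
    have h2 : (s.c : ℝ) = (s.C : ℝ) / 2 ^ s.mm := by unfold StepD.c; push_cast; ring
    have h3 : (s.h : ℝ) = (s.H : ℝ) / 2 ^ s.mm := by unfold StepD.h; push_cast; ring
    have h4 : (t : ℂ) = (((s.c : ℝ) + (s.h : ℝ) * ((t - (s.c : ℝ)) / (s.h : ℝ)) : ℝ) : ℂ) := by
      rw [← h1]
    rw [h4]
    generalize ((t - (s.c : ℝ)) / (s.h : ℝ)) = y
    rw [h2, h3]
    push_cast
    ring
  have hhc : ((s.h : ℚ) : ℂ) = (s.H : ℂ) / 2 ^ s.mm := by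
    unfold StepD.h; push_cast; ring
  have key : (t : ℂ) * ((wS hd s δ t) ^ 4 + bC hd Bv δ * (wS hd s δ t) ^ 7) + rS' hd s δ t =
      ePoly hd s (s.L hd) τ δ / ((s.H : ℂ) ^ 2 * 2 ^ (s.mm + 7 * s.M + hd.e)) +
      ((t * (Bv - (hd.b0 : ℝ)) : ℝ) : ℂ) * (wS hd s δ t) ^ 7 := by
    have hb0 : ((hd.b0 : ℝ) : ℂ) = (hd.B0 : ℂ) / 2 ^ hd.e := by
      unfold Hdr.b0; push_cast; ring
    unfold wS rS' ePoly bC
    rw [← hτ]
    push_cast
    rw [hhc, htt]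
    have hb0' : ((hd.b0 : ℚ) : ℂ) = (hd.B0 : ℂ) / 2 ^ hd.e := by
      rw [← hb0]; push_cast; rfl
    rw [hb0']
    have p1 : (2 : ℂ) ^ (s.mm + 7 * s.M + hd.e) = 2 ^ s.mm * (2 ^ s.M) ^ 7 * 2 ^ hd.e := by
      rw [← pow_mul, ← pow_add, ← pow_add]; ring_nf
    have p2 : (2 : ℂ) ^ (hd.e + 2 * s.mm + 6 * s.M) = 2 ^ hd.e * (2 ^ s.mm) ^ 2 * (2 ^ s.M) ^ 6 := by
      rw [← pow_mul, ← pow_mul, ← pow_add, ← pow_add]; ring_nf
    have p3 : (2 : ℂ) ^ (hd.e + 3 * s.M) = 2 ^ hd.e * (2 ^ s.M) ^ 3 := by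
      rw [← pow_mul, ← pow_add]; ring_nf
    rw [p1, p2, p3]
    have q1 : (2 : ℂ) ^ s.mm ≠ 0 := pow_ne_zero _ two_ne_zero
    have q2 : (2 : ℂ) ^ s.M ≠ 0 := pow_ne_zero _ two_ne_zero
    have q3 : (2 : ℂ) ^ hd.e ≠ 0 := pow_ne_zero _ two_ne_zero
    generalize (2 : ℂ) ^ s.mm = m at *
    generalize (2 : ℂ) ^ s.M = M at *
    generalize (2 : ℂ) ^ hd.e = e at *
    generalize ev2 τ δ (s.L hd) = u
    generalize ev2 τ δ (dTau (s.L hd)) = u1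
    generalize ev2 τ δ (dTau (dTau (s.L hd))) = u2
    field_simp
    ring
  have h0 : 0 ≤ t := (a_nonneg s hF.hC).trans ht.1
  have k1 : ‖ePoly hd s (s.L hd) τ δ / ((s.H : ℂ) ^ 2 * 2 ^ (s.mm + 7 * s.M + hd.e))‖ ≤
      (swar hd.b (7 * hd.n * (7 * hd.k)) (eInt hd s (s.L hd)) : ℝ) /
        ((s.H : ℝ) ^ 2 * 2 ^ (s.mm + 7 * s.M + hd.e)) := by
    rw [norm_div, norm_mul, norm_pow, norm_pow, Complex.norm_natCast]
    have h2 : ‖(2 : ℂ)‖ = 2 := by simp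
    rw [h2]
    gcongr
  have k2 : ‖((t * (Bv - (hd.b0 : ℝ)) : ℝ) : ℂ) * (wS hd s δ t) ^ 7‖ ≤
      (sc hd.bt : ℝ) * (s.bb : ℝ) * ((v0 s (s.L hd) : ℝ) + (vV s (s.L hd) : ℝ)) ^ 7 := by
    rw [norm_mul, Complex.norm_real, Real.norm_eq_abs, abs_mul, abs_of_nonneg h0, norm_pow]
    have h5 : |Bv - (hd.b0 : ℝ)| ≤ (sc hd.bt : ℝ) := hB
    have h6 := w_norm (hd := hd) hF.hH ht hδ
    have h7 : ‖wS hd s δ t‖ ^ 7 ≤ ((v0 s (s.L hd) : ℝ) + (vV s (s.L hd) : ℝ)) ^ 7 := by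
      gcongr
    have h8 : t * |Bv - (hd.b0 : ℝ)| ≤ (sc hd.bt : ℝ) * (s.bb : ℝ) := by
      rw [mul_comm]
      apply mul_le_mul h5 ht.2 h0 (sc_nonneg _)
    apply mul_le_mul h8 h7 (by positivity)
    have := sc_nonneg hd.bt
    have : 0 ≤ (s.bb : ℝ) := h0.trans ht.2
    positivity
  have k3 : (epsS hd s (s.L hd) : ℝ) =
      (swar hd.b (7 * hd.n * (7 * hd.k)) (eInt hd s (s.L hd)) : ℝ) /
        ((s.H : ℝ) ^ 2 * 2 ^ (s.mm + 7 * s.M + hd.e)) +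
      (sc hd.bt : ℝ) * (s.bb : ℝ) * ((v0 s (s.L hd) : ℝ) + (vV s (s.L hd) : ℝ)) ^ 7 := by
    unfold epsS
    push_cast
    rfl
  rw [key, k3]
  exact (norm_add_le _ _).trans (add_le_add k1 k2)

theorem tubeIneq (hF : Facts hd s) {Bv : ℝ} (hB : BAdm hd Bv) {δ : ℂ} (hδ : ‖δ‖ ≤ 1) {z w : ℂ}
    (hz : ‖z - ((v00 s (s.L hd) : ℝ) : ℂ)‖ ≤ (vV s (s.L hd) : ℝ) + (sc s.rho : ℝ))
    (hw : ‖w - ((v00 s (s.L hd) : ℝ) : ℂ)‖ ≤ (vV s (s.L hd) : ℝ) + (sc s.rho : ℝ)) :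
    ‖(z ^ 4 + bC hd Bv δ * z ^ 7) - (w ^ 4 + bC hd Bv δ * w ^ 7) -
      (((sc s.g : ℝ) ^ 2 : ℝ) : ℂ) * (z - w)‖ ≤ (theta hd s (s.L hd) : ℝ) * ‖z - w‖ := by
  have h := s3_tube (v00 s (s.L hd) : ℝ) ((vV s (s.L hd) : ℝ) + (sc s.rho : ℝ)) (hd.b0 : ℝ)
    (hd.bm : ℝ) ((sc s.g : ℝ) ^ 2) (bC hd Bv δ) z w
    (by have := vV_nonneg hd s; have := hF.r0; positivity) hF.b0 (bC_sub hB hδ) hz hw
  rw [theta_cast]
  exact h

theorem expo {A M : ℝ} (hM : 0 ≤ M)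
    (h : A ≤ M * (1 - (theta hd s (s.L hd) : ℝ) * (s.h : ℝ) / (sc s.g : ℝ))) :
    A * Real.exp ((theta hd s (s.L hd) : ℝ) * (s.h : ℝ) / (sc s.g : ℝ)) ≤ M := by
  set x := (theta hd s (s.L hd) : ℝ) * (s.h : ℝ) / (sc s.g : ℝ) with hx
  have h1 : (1 - x) * Real.exp x ≤ 1 := by
    have h2 := Real.one_sub_le_exp_neg x
    have h3 := Real.exp_pos x
    calc (1 - x) * Real.exp x ≤ Real.exp (-x) * Real.exp x := by gcongr
      _ = 1 := by rw [← Real.exp_add]; simp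
  calc A * Real.exp x ≤ (M * (1 - x)) * Real.exp x := by
        gcongr
    _ = M * ((1 - x) * Real.exp x) := by ring
    _ ≤ M * 1 := by gcongr
    _ = M := by ring

/-- **S4** -/
theorem s4_step (hS1 : S1_defect) : S4_step := by
  intro hd s Bv hB hok
  have hF := facts hok
  have hh := h_pos s hF.hH
  have ha := a_nonneg s hF.hC
  have hab : (s.a : ℝ) < (s.bb : ℝ) := by rw [a_eq, b_eq]; linarith
  have hθ := theta_nonneg hF
  have hε := eps_nonneg hd s hF.hH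
  have hba : (s.bb : ℝ) - (s.a : ℝ) = 2 * (s.h : ℝ) := by rw [a_eq, b_eq]; ring
  have hV := vV_nonneg hd s
  constructor
  · intro δ v q hδ hv hNB
    have hw := s2_approx hd s δ hF.hH hF.hC
    have hboot := Pool.Agent.W2helper95.LN.P4.boot (fun _ z => fCut hd Bv δ z)
      (fun t _ => -(rS' hd s δ t) / (t : ℂ)) (s.a : ℝ) (s.bb : ℝ) (sc s.g : ℝ)
      (theta hd s (s.L hd) : ℝ) (epsS hd s (s.L hd) : ℝ) (sc s.rho : ℝ) (sc s.mu0 : ℝ)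
      (sc s.mu1 : ℝ) v q (wS hd s δ) (rS hd s δ) ha hab hF.g0 hθ hε (sc_nonneg _) hF.r0 hv hw
      ?_ hNB ?_ hF.tube
    · intro t ht
      obtain ⟨h1, h2⟩ := hboot t ht
      obtain ⟨h3, h4, h5⟩ := near_norm hF (near hF ht hδ h2.le)
      exact ⟨h1, h2.le, h4, h5⟩
    · intro t ht z hz
      have h0 : 0 ≤ t := ha.trans ht.1
      rcases h0.eq_or_lt with h00 | h00
      · rw [← h00]
        simp only [zero_smul, norm_zero, zero_mul, mul_zero, zero_add]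
        exact hε
      · have hzn := near hF ht hδ hz
        obtain ⟨h3, h4, h5⟩ := near_norm hF hzn
        have hwn : ‖wS hd s δ t - ((v00 s (s.L hd) : ℝ) : ℂ)‖ ≤
            (vV s (s.L hd) : ℝ) + (sc s.rho : ℝ) :=
          (w_sub hF.hH ht hδ).trans (by linarith [hF.r0])
        have hti := tubeIneq hF hB hδ hzn hwn
        have hde := defect hS1 hF hB ht hδ
        have htc : (t : ℂ) ≠ 0 := by exact_mod_cast h00.ne'
        have e : t • (fCut hd Bv δ z - -(rS' hd s δ t) / (t : ℂ) -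
            (((sc s.g : ℝ) ^ 2 : ℝ) : ℂ) * (z - wS hd s δ t)) =
            (t : ℂ) * ((z ^ 4 + bC hd Bv δ * z ^ 7) -
              ((wS hd s δ t) ^ 4 + bC hd Bv δ * (wS hd s δ t) ^ 7) -
              (((sc s.g : ℝ) ^ 2 : ℝ) : ℂ) * (z - wS hd s δ t)) +
            ((t : ℂ) * ((wS hd s δ t) ^ 4 + bC hd Bv δ * (wS hd s δ t) ^ 7) +
              rS' hd s δ t) := by
          rw [Complex.real_smul]
          unfold fCut
          rw [sq8 h4]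
          field_simp
          ring
        show ‖t • (fCut hd Bv δ z - -(rS' hd s δ t) / (t : ℂ) -
            (((sc s.g : ℝ) ^ 2 : ℝ) : ℂ) * (z - wS hd s δ t))‖ ≤ _
        rw [e]
        refine (norm_add_le _ _).trans (add_le_add ?_ hde)
        rw [norm_mul, Complex.norm_real, Real.norm_eq_abs, abs_of_pos h00]
        calc t * _ ≤ t * ((theta hd s (s.L hd) : ℝ) * ‖z - wS hd s δ t‖) := by gcongr
          _ = _ := by ring
    · have e1 : (theta hd s (s.L hd) : ℝ) * ((s.bb : ℝ) - (s.a : ℝ)) / (2 * (sc s.g : ℝ)) =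
          (theta hd s (s.L hd) : ℝ) * (s.h : ℝ) / (sc s.g : ℝ) := by
        rw [hba]
        have := hF.g0.ne'
        field_simp
      rw [e1, hba]
      apply expo (sc_nonneg _)
      have := hF.m1
      linarith
  · intro Bv' δ v q v' q' D hB' hδ hD hv hv' htube hNB t ht
    have hD0 : 0 ≤ D := (abs_nonneg _).trans hD
    set R : ℝ := (v0 s (s.L hd) : ℝ) + (vV s (s.L hd) : ℝ) + (sc s.rho : ℝ) with hR
    have hR0 : 0 ≤ R := by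
      rw [hR, v00_abs]
      have := hF.r0
      positivity
    have hbb : 0 ≤ (s.bb : ℝ) := ha.trans hab.le
    have hst := Pool.Agent.W2helper95.LN.P4.step (fun _ z => fCut hd Bv δ z)
      (fun _ z => fCut hd Bv' δ z) (s.a : ℝ) (s.bb : ℝ) (sc s.g : ℝ)
      (theta hd s (s.L hd) : ℝ) ((s.bb : ℝ) * R ^ 7 * D) ((sc s.nu0 : ℝ) * D)
      v q v' q' ha hab hF.g0 hθ (by positivity) (by have := sc_nonneg s.nu0; positivity) hv hv'
      ?_ hNB t ht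
    · unfold NB
      refine hst.trans ?_
      have ht2 : t - (s.a : ℝ) ≤ 2 * (s.h : ℝ) := by rw [← hba]; linarith [ht.2]
      have ht0 : 0 ≤ t - (s.a : ℝ) := by linarith [ht.1]
      have hnu := sc_nonneg s.nu0
      have hexp : Real.exp ((theta hd s (s.L hd) : ℝ) * (t - (s.a : ℝ)) / (2 * (sc s.g : ℝ))) ≤
          Real.exp ((theta hd s (s.L hd) : ℝ) * (s.h : ℝ) / (sc s.g : ℝ)) := by
        apply Real.exp_le_exp.2
        have e1 : (theta hd s (s.L hd) : ℝ) * (s.h : ℝ) / (sc s.g : ℝ) =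
          (theta hd s (s.L hd) : ℝ) * (2 * (s.h : ℝ)) / (2 * (sc s.g : ℝ)) := by
          have := hF.g0.ne'
          field_simp
        rw [e1]
        have := hF.g0
        gcongr
      have h1 : ((sc s.nu0 : ℝ) * D + (s.bb : ℝ) * R ^ 7 * D * (t - (s.a : ℝ))) *
          Real.exp ((theta hd s (s.L hd) : ℝ) * (t - (s.a : ℝ)) / (2 * (sc s.g : ℝ))) ≤
          (sc s.nu1 : ℝ) * D := by
        calc _ ≤ ((sc s.nu0 : ℝ) * D + (s.bb : ℝ) * R ^ 7 * D * (2 * (s.h : ℝ))) *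
              Real.exp ((theta hd s (s.L hd) : ℝ) * (s.h : ℝ) / (sc s.g : ℝ)) := by
              gcongr
          _ = (((sc s.nu0 : ℝ) + 2 * (s.h : ℝ) * ((s.bb : ℝ) * R ^ 7)) *
              Real.exp ((theta hd s (s.L hd) : ℝ) * (s.h : ℝ) / (sc s.g : ℝ))) * D := by ring
          _ ≤ (sc s.nu1 : ℝ) * D := by
              apply mul_le_mul_of_nonneg_right _ hD0
              apply expo (sc_nonneg _)
              exact hF.n1
      have h2 : 0 ≤ ((sc s.nu0 : ℝ) * D + (s.bb : ℝ) * R ^ 7 * D * (t - (s.a : ℝ))) *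
          Real.exp ((theta hd s (s.L hd) : ℝ) * (t - (s.a : ℝ)) / (2 * (sc s.g : ℝ))) := by
        positivity
      gcongr
    · intro t ht
      have h0 : 0 ≤ t := ha.trans ht.1
      obtain ⟨hz1, hz2⟩ := htube t ht
      have hn1 := near hF ht hδ hz1
      have hn2 := near hF ht hδ hz2
      obtain ⟨a1, a2, a3⟩ := near_norm hF hn1
      obtain ⟨b1, b2, b3⟩ := near_norm hF hn2
      have hti := tubeIneq hF hB hδ hn1 hn2
      have e : t • (fCut hd Bv δ (v t) - fCut hd Bv' δ (v' t) -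
          (((sc s.g : ℝ) ^ 2 : ℝ) : ℂ) * (v t - v' t)) =
          (t : ℂ) * (((v t) ^ 4 + bC hd Bv δ * (v t) ^ 7) -
            ((v' t) ^ 4 + bC hd Bv δ * (v' t) ^ 7) -
            (((sc s.g : ℝ) ^ 2 : ℝ) : ℂ) * (v t - v' t)) +
          ((t * (Bv - Bv') : ℝ) : ℂ) * (v' t) ^ 7 := by
        rw [Complex.real_smul]
        unfold fCut
        rw [sq8 a2, sq8 b2]
        unfold bC
        push_cast
        ring
      show ‖t • (fCut hd Bv δ (v t) - fCut hd Bv' δ (v' t) -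
          (((sc s.g : ℝ) ^ 2 : ℝ) : ℂ) * (v t - v' t))‖ ≤ _
      rw [e]
      refine (norm_add_le _ _).trans (add_le_add ?_ ?_)
      · rw [norm_mul, Complex.norm_real, Real.norm_eq_abs, abs_of_nonneg h0]
        calc t * _ ≤ t * ((theta hd s (s.L hd) : ℝ) * ‖v t - v' t‖) := by gcongr
          _ = _ := by ring
      · rw [norm_mul, Complex.norm_real, Real.norm_eq_abs, abs_mul, abs_of_nonneg h0, norm_pow]
        calc t * |Bv - Bv'| * ‖v' t‖ ^ 7 ≤ (s.bb : ℝ) * D * R ^ 7 := by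
              gcongr
              exact ht.2
          _ = _ := by ring

end Pool.Agent.W2helper26.LN
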