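import Pool.Agent.W2helper59.LN.Stm

/-!
# P3, analytic part: characterisation of the solution set by the first zero
-/

set_option autoImplicit false

namespace Pool.Agent.W2helper26.LN

open Set Pool.Agent.W2helper59.LN

theorem fp_of_nonneg {v : ℝ} (h : 0 ≤ v) : fp v = v ^ 4 + v ^ 7 := by
  unfold fp; rw [max_eq_left h]

theorem continuous_fp : Continuous fp := by
  unfold fp; fun_prop

/-! ### (→): a solution of the boundary value problem gives the first zero -/

theorem isT_of_sol {V Q : ℝ → ℝ → ℝ} (hF : Fam V Q) {l a : ℝ} (hl : 0 < l)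
    {u : ℝ → ℝ} {ε : ℝ} (hε : 0 < ε) (hu : ContDiffOn ℝ 2 u (Ioo (-ε) (1 + ε)))
    (hu0 : u 0 = a) (hu1 : u 1 = 0)
    (hpos : ∀ r ∈ Ico (0:ℝ) 1, 0 < u r)
    (hode : ∀ r ∈ Ioc (0:ℝ) 1,
            deriv (deriv u) r + 2 / r * deriv u r + l * (u r ^ 4 + u r ^ 7) = 0) :
    0 < a ∧ IsT V a (Real.sqrt l) := by
  have ha : 0 < a := by rw [← hu0]; exact hpos 0 ⟨le_rfl, one_pos⟩
  refine ⟨ha, ?_⟩
  set T := Real.sqrt l with hT
  have hTpos : 0 < T := Real.sqrt_pos.2 hl
  have hT2 : T ^ 2 = l := Real.sq_sqrt hl.le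
  have hopen : IsOpen (Ioo (-ε) (1 + ε)) := isOpen_Ioo
  have hmem : ∀ t ∈ Icc (0:ℝ) T, t / T ∈ Ioo (-ε) (1 + ε) := by
    intro t ht
    have h1 : 0 ≤ t / T := div_nonneg ht.1 hTpos.le
    have h2 : t / T ≤ 1 := (div_le_one hTpos).2 ht.2
    constructor <;> linarith
  -- derivatives
  have hd1 : ∀ r ∈ Ioo (-ε) (1 + ε), HasDerivAt u (deriv u r) r := fun r hr =>
    ((hu.differentiableOn (by norm_num)) r hr |>.differentiableAt (hopen.mem_nhds hr)).hasDerivAt
  have hcd : ContDiffOn ℝ 1 (deriv u) (Ioo (-ε) (1 + ε)) := by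
    have hu' : ContDiffOn ℝ (1 + 1) u (Ioo (-ε) (1 + ε)) := by
      rw [one_add_one_eq_two]; exact hu
    have := (contDiffOn_succ_iff_deriv_of_isOpen (n := 1) hopen).1 hu'
    exact this.2.2
  have hd2 : ∀ r ∈ Ioo (-ε) (1 + ε), HasDerivAt (deriv u) (deriv (deriv u) r) r := fun r hr =>
    ((hcd.differentiableOn (by norm_num)) r hr |>.differentiableAt (hopen.mem_nhds hr)).hasDerivAt
  have hdivd : ∀ t : ℝ, HasDerivAt (fun s : ℝ => s / T) (1 / T) t := fun t => by
    simpa using (hasDerivAt_id t).div_const T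
  set v : ℝ → ℝ := fun t => u (t / T) with hv
  set q : ℝ → ℝ := fun t => u (t / T) + t / T * deriv u (t / T) with hq
  have hsol : SolOn (fun _ v => fp v) 0 T v q := by
    refine ⟨?_, ?_, ?_, ?_⟩
    · exact hu.continuousOn.comp (Continuous.continuousOn (by fun_prop)) hmem
    · refine ContinuousOn.add (hu.continuousOn.comp (Continuous.continuousOn (by fun_prop)) hmem) ?_
      refine ContinuousOn.mul (Continuous.continuousOn (by fun_prop)) ?_
      exact hcd.continuousOn.comp (Continuous.continuousOn (by fun_prop)) hmem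
    · intro t ht
      have hm := hmem t ⟨ht.1.le, ht.2.le⟩
      have h1 := (hd1 _ hm).comp t (hdivd t)
      have h2 := (hasDerivAt_id t).mul h1
      refine (h2.congr_deriv ?_)
      simp only [hq, id, Function.comp]
      ring
    · intro t ht
      have hm := hmem t ⟨ht.1.le, ht.2.le⟩
      have h1 := (hd1 _ hm).comp t (hdivd t)
      have h2 := (hd2 _ hm).comp t (hdivd t)
      have h3 := h1.add ((hdivd t).mul h2)
      refine (h3.congr_deriv ?_)
      have hr : t / T ∈ Ioc (0:ℝ) 1 := ⟨div_pos ht.1 hTpos, (div_le_one hTpos).2 ht.2.le⟩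
      have hr' : t / T ∈ Ico (0:ℝ) 1 := ⟨(div_pos ht.1 hTpos).le, (div_lt_one hTpos).2 ht.2⟩
      have e := hode _ hr
      have hfp : fp (v t) = u (t / T) ^ 4 + u (t / T) ^ 7 := fp_of_nonneg (hpos _ hr').le
      simp only [smul_eq_mul, Function.comp]
      rw [hfp]
      have ht0 : t ≠ 0 := ht.1.ne'
      have hT0 : T ≠ 0 := hTpos.ne'
      rw [← hT2] at e
      have e2 : deriv (deriv u) (t / T) = -(2 / (t / T) * deriv u (t / T)) -
        T ^ 2 * (u (t / T) ^ 4 + u (t / T) ^ 7) := by linarith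
      rw [e2]
      field_simp
      ring
  have hv0 : v 0 = a := by simp [hv, hu0]
  have huniq := hF.uniq a ha T hTpos v q hsol hv0
  refine ⟨hTpos, ?_, ?_⟩
  · rw [← (huniq T ⟨hTpos.le, le_rfl⟩).1]
    simp [hv, div_self hTpos.ne', hu1]
  · intro t ht
    rw [← (huniq t ⟨ht.1, ht.2.le⟩).1]
    exact hpos _ ⟨div_nonneg ht.1 hTpos.le, (div_lt_one hTpos).2 ht.2⟩

/-! ### (←): regularity of the even extension -/

section even

variable {V Q : ℝ → ℝ → ℝ} (hF : Fam V Q) {a : ℝ} (ha : 0 < a)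

include hF ha

theorem cont_abs : Continuous (fun t : ℝ => V a |t|) := by
  have h : ContinuousOn (V a) (Ici 0) := by
    intro t ht
    have hc := (hF.sol a ha (t + 1) (by have := mem_Ici.1 ht; linarith)).cv
    have h1 : ContinuousWithinAt (V a) (Icc 0 (t + 1)) t := hc t ⟨ht, by linarith⟩
    refine h1.mono_of_mem_nhdsWithin ?_
    rw [mem_nhdsWithin]
    exact ⟨Iio (t + 1), isOpen_Iio, by simp, fun s hs => ⟨hs.2, le_of_lt hs.1⟩⟩
  exact h.comp_continuous continuous_abs (fun t => abs_nonneg t)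

theorem contQ : ContinuousOn (Q a) (Ici 0) := by
  intro t ht
  have hc := (hF.sol a ha (t + 1) (by have := mem_Ici.1 ht; linarith)).cq
  have h1 : ContinuousWithinAt (Q a) (Icc 0 (t + 1)) t := hc t ⟨ht, by linarith⟩
  refine h1.mono_of_mem_nhdsWithin ?_
  rw [mem_nhdsWithin]
  exact ⟨Iio (t + 1), isOpen_Iio, by simp, fun s hs => ⟨hs.2, le_of_lt hs.1⟩⟩

theorem dV_pos {t : ℝ} (ht : 0 < t) : HasDerivAt (V a) ((Q a t - V a t) / t) t := by
  have h := (hF.sol a ha (t + 1) (by linarith)).dv t ⟨ht, by linarith⟩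
  have h2 : HasDerivAt (fun s : ℝ => (s • V a s) / s) ((Q a t * t - (t • V a t) * 1) / t ^ 2) t :=
    h.div (hasDerivAt_id t) ht.ne'
  have h3 : HasDerivAt (V a) ((Q a t * t - (t • V a t) * 1) / t ^ 2) t := by
    refine h2.congr_of_eventuallyEq ?_
    filter_upwards [lt_mem_nhds ht] with s hs
    simp only [smul_eq_mul]
    field_simp
  refine h3.congr_deriv ?_
  simp only [smul_eq_mul]
  field_simp

theorem dQ_pos {t : ℝ} (ht : 0 < t) : HasDerivAt (Q a) (-(t * fp (V a t))) t := by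
  have h := (hF.sol a ha (t + 1) (by linarith)).dq t ⟨ht, by linarith⟩
  simpa using h

/-- the averaged nonlinearity -/
noncomputable def GG (V : ℝ → ℝ → ℝ) (a t : ℝ) : ℝ := ∫ σ in (0:ℝ)..1, σ ^ 2 * fp (V a |σ * t|)

omit hF ha in
theorem GG_neg (V : ℝ → ℝ → ℝ) (a t : ℝ) : GG V a (-t) = GG V a t := by
  unfold GG
  simp only [mul_neg, abs_neg]

theorem continuous_GG : Continuous (GG V a) := by
  unfold GG
  have hc := cont_abs hF ha
  refine intervalIntegral.continuous_parametric_intervalIntegral_of_continuous'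
    (f := fun t σ => σ ^ 2 * fp (V a |σ * t|)) ?_ 0 1
  have h1 : Continuous (fun p : ℝ × ℝ => V a |p.2 * p.1|) :=
    hc.comp (f := fun p : ℝ × ℝ => p.2 * p.1) (by fun_prop)
  exact (by fun_prop : Continuous (fun p : ℝ × ℝ => p.2 ^ 2)).mul (continuous_fp.comp h1)

omit ha in
theorem GG_zero (ha : 0 < a) : GG V a 0 = fp a / 3 := by
  unfold GG
  simp only [mul_zero, abs_zero, hF.v0 a ha]
  rw [intervalIntegral.integral_mul_const, integral_pow]
  norm_num
  ring

theorem key_int {t : ℝ} (ht : 0 < t) : t * (Q a t - V a t) = -(t ^ 3 * GG V a t) := by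
  have hc := cont_abs hF ha
  -- the integral
  have hint : t ^ 3 * GG V a t = ∫ s in (0:ℝ)..t, s ^ 2 * fp (V a |s|) := by
    unfold GG
    have h := intervalIntegral.mul_integral_comp_mul_left (a := 0) (b := 1)
      (f := fun s => s ^ 2 * fp (V a |s|)) t
    simp only [mul_zero, mul_one] at h
    rw [← h]
    have : (∫ x in (0:ℝ)..1, (t * x) ^ 2 * fp (V a |t * x|)) =
      t ^ 2 * ∫ x in (0:ℝ)..1, x ^ 2 * fp (V a |x * t|) := by
      rw [← intervalIntegral.integral_const_mul]
      congr 1; ext x; rw [mul_comm t x]; ring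
    rw [this]; ring
  rw [hint]
  set Φ : ℝ → ℝ := fun s => s * (Q a s - V a s) + ∫ x in (0:ℝ)..s, x ^ 2 * fp (V a |x|) with hΦ
  have hcont : Continuous (fun x : ℝ => x ^ 2 * fp (V a |x|)) :=
    (by fun_prop : Continuous (fun x : ℝ => x ^ 2)).mul (continuous_fp.comp hc)
  have hI : ∀ s, HasDerivAt (fun s => ∫ x in (0:ℝ)..s, x ^ 2 * fp (V a |x|))
      (s ^ 2 * fp (V a |s|)) s := fun s =>
    intervalIntegral.integral_hasDerivAt_right (hcont.intervalIntegrable _ _)
      (hcont.stronglyMeasurableAtFilter _ _) hcont.continuousAt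
  have hVc : ContinuousOn (V a) (Icc 0 t) := (hF.sol a ha t ht).cv
  have hQc : ContinuousOn (Q a) (Icc 0 t) := (hF.sol a ha t ht).cq
  have hΦc : ContinuousOn Φ (Icc 0 t) := by
    refine ContinuousOn.add (continuousOn_id.mul (hQc.sub hVc)) ?_
    exact Continuous.continuousOn (continuous_iff_continuousAt.2 fun s => (hI s).continuousAt)
  have hΦd : ∀ s ∈ Ico 0 t, s ≠ 0 → HasDerivAt Φ 0 s := by
    intro s hs hs0
    have hs1 : 0 < s := lt_of_le_of_ne hs.1 (Ne.symm hs0)
    have h1 := ((hasDerivAt_id s).mul ((dQ_pos hF ha hs1).sub (dV_pos hF ha hs1))).add (hI s)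
    refine h1.congr_deriv ?_
    simp only [id, abs_of_pos hs1]
    simp only [Pi.sub_apply]
    field_simp
    ring
  have hconst : Φ t = Φ 0 := by
    have hmvt : ∀ x ∈ Icc 0 t, Φ x = Φ t := by
      intro x hx
      rcases eq_or_lt_of_le hx.2 with h | h
      · rw [h]
      · by_contra hne
        obtain ⟨c, hc1, hc2⟩ := exists_hasDerivAt_eq_slope Φ (fun _ => 0) h
          (hΦc.mono (Icc_subset_Icc hx.1 le_rfl))
          (fun y hy => hΦd y ⟨(hx.1.trans hy.1.le), hy.2⟩ (ne_of_gt (lt_of_le_of_lt hx.1 hy.1)))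
        have h3 : t - x ≠ 0 := by linarith [h] |> fun h' : 0 < t - x => h'.ne'
        have h4 : (Φ t - Φ x) / (t - x) = 0 := hc2.symm
        rw [div_eq_zero_iff] at h4
        rcases h4 with h4 | h4
        · exact hne (by linarith)
        · exact h3 h4
    exact (hmvt 0 ⟨le_rfl, ht.le⟩).symm
  have h0 : Φ 0 = 0 := by simp [hΦ]
  have : Φ t = 0 := hconst.trans h0
  simp only [hΦ] at this
  linarith

/-- first derivative of the even extension -/
theorem dW (t : ℝ) : HasDerivAt (fun s : ℝ => V a |s|) (-(t * GG V a t)) t := by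
  have hc := cont_abs hF ha
  have hG := continuous_GG hF ha
  have hpos : ∀ t : ℝ, 0 < t → HasDerivAt (fun s : ℝ => V a |s|) (-(t * GG V a t)) t := by
    intro t ht
    have h1 := dV_pos hF ha ht
    have e : (Q a t - V a t) / t = -(t * GG V a t) := by
      have := key_int hF ha ht
      field_simp
      have h2 : t * (Q a t - V a t) = t * (-(t ^ 2 * GG V a t)) := by rw [this]; ring
      have h3 := mul_left_cancel₀ ht.ne' h2
      linarith
    rw [e] at h1
    refine h1.congr_of_eventuallyEq ?_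
    filter_upwards [lt_mem_nhds ht] with s hs
    rw [abs_of_pos hs]
  have hne : ∀ t : ℝ, t ≠ 0 → HasDerivAt (fun s : ℝ => V a |s|) (-(t * GG V a t)) t := by
    intro t ht
    rcases lt_or_gt_of_ne ht with h | h
    · have h1 := hpos (-t) (by linarith)
      have h2 := h1.comp t ((hasDerivAt_id t).neg)
      have e : (fun s : ℝ => V a |s|) ∘ (fun s : ℝ => -s) = fun s : ℝ => V a |s| := by
        ext s; simp
      have h3 : HasDerivAt ((fun s : ℝ => V a |s|) ∘ (fun s : ℝ => -s)) _ t := h2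
      rw [e] at h3
      refine h3.congr_deriv ?_
      rw [GG_neg]; ring
    · exact hpos t h
  by_cases ht : t = 0
  · subst ht
    have := hasDerivAt_of_hasDerivAt_of_ne (f := fun s : ℝ => V a |s|)
      (g := fun t => -(t * GG V a t)) (x := 0) (fun y hy => hne y hy) hc.continuousAt
      ((continuous_id.mul hG).neg.continuousAt)
    exact this
  · exact hne t ht

/-- second derivative of the even extension -/
theorem dW2 (t : ℝ) : HasDerivAt (fun s : ℝ => -(s * GG V a s))
    (-fp (V a |t|) + 2 * GG V a t) t := by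
  have hc := cont_abs hF ha
  have hG := continuous_GG hF ha
  have hpos : ∀ t : ℝ, 0 < t → HasDerivAt (fun s : ℝ => -(s * GG V a s))
      (-fp (V a |t|) + 2 * GG V a t) t := by
    intro t ht
    have h1 : HasDerivAt (fun s => (Q a s - V a s) / s) (((-(t * fp (V a t)) -
        (Q a t - V a t) / t) * t - (Q a t - V a t) * 1) / t ^ 2) t :=
      ((dQ_pos hF ha ht).sub (dV_pos hF ha ht)).div (hasDerivAt_id t) ht.ne'
    have e : ∀ s : ℝ, 0 < s → (Q a s - V a s) / s = -(s * GG V a s) := by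
      intro s hs
      have := key_int hF ha hs
      field_simp
      have h2 : s * (Q a s - V a s) = s * (-(s ^ 2 * GG V a s)) := by rw [this]; ring
      have h3 := mul_left_cancel₀ hs.ne' h2
      linarith
    have h2 : HasDerivAt (fun s : ℝ => -(s * GG V a s)) (((-(t * fp (V a t)) -
        (Q a t - V a t) / t) * t - (Q a t - V a t) * 1) / t ^ 2) t := by
      refine h1.congr_of_eventuallyEq ?_
      filter_upwards [lt_mem_nhds ht] with s hs
      rw [e s hs]
    refine h2.congr_deriv ?_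
    rw [abs_of_pos ht, e t ht]
    have e2 : Q a t - V a t = -(t ^ 2 * GG V a t) := by
      have := e t ht
      field_simp at this
      linarith
    rw [e2]
    field_simp
    ring
  have hne : ∀ t : ℝ, t ≠ 0 → HasDerivAt (fun s : ℝ => -(s * GG V a s))
      (-fp (V a |t|) + 2 * GG V a t) t := by
    intro t ht
    rcases lt_or_gt_of_ne ht with h | h
    · have h1 := hpos (-t) (by linarith)
      have h2 := (h1.comp t ((hasDerivAt_id t).neg)).neg
      have e : (fun s : ℝ => -(((fun s : ℝ => -(s * GG V a s)) ∘ (fun s : ℝ => -s)) s)) =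
          fun s : ℝ => -(s * GG V a s) := by
        ext s; simp [GG_neg]
      have h3 : HasDerivAt (fun s : ℝ => -(((fun s : ℝ => -(s * GG V a s)) ∘
        (fun s : ℝ => -s)) s)) _ t := h2
      rw [e] at h3
      refine h3.congr_deriv ?_
      rw [GG_neg, abs_neg]; ring
    · exact hpos t h
  by_cases ht : t = 0
  · subst ht
    have := hasDerivAt_of_hasDerivAt_of_ne (f := fun s : ℝ => -(s * GG V a s))
      (g := fun t => -fp (V a |t|) + 2 * GG V a t) (x := 0) (fun y hy => hne y hy)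
      ((continuous_id.mul hG).neg.continuousAt)
      (((continuous_fp.comp hc).neg.add (continuous_const.mul hG)).continuousAt)
    exact this
  · exact hne t ht

theorem contDiff_W : ContDiff ℝ 2 (fun s : ℝ => V a |s|) := by
  have hc := cont_abs hF ha
  have hG := continuous_GG hF ha
  have e1 : deriv (fun s : ℝ => V a |s|) = fun s => -(s * GG V a s) :=
    funext fun s => (dW hF ha s).deriv
  have e2 : deriv (fun s : ℝ => -(s * GG V a s)) = fun s => -fp (V a |s|) + 2 * GG V a s :=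
    funext fun s => (dW2 hF ha s).deriv
  have h1 : ContDiff ℝ 1 (fun s : ℝ => -(s * GG V a s)) := by
    rw [contDiff_one_iff_deriv]
    refine ⟨fun s => (dW2 hF ha s).differentiableAt, ?_⟩
    rw [e2]
    exact (continuous_fp.comp hc).neg.add (continuous_const.mul hG)
  have h2 : ContDiff ℝ (1 + 1) (fun s : ℝ => V a |s|) := by
    rw [contDiff_succ_iff_deriv]
    refine ⟨fun s => (dW hF ha s).differentiableAt, by simp, ?_⟩
    rw [e1]; exact h1
  rw [one_add_one_eq_two] at h2
  exact h2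

theorem sol_of_isT {l : ℝ} (hl : 0 < l) (hT : IsT V a (Real.sqrt l)) :
    ∃ u : ℝ → ℝ, ∃ ε : ℝ, 0 < ε ∧
          ContDiffOn ℝ 2 u (Set.Ioo (-ε) (1 + ε)) ∧
          u 0 = a ∧ deriv u 0 = 0 ∧ u 1 = 0 ∧
          (∀ r ∈ Set.Ico (0:ℝ) 1, 0 < u r) ∧
          ∀ r ∈ Set.Ioc (0:ℝ) 1,
            deriv (deriv u) r + 2 / r * deriv u r + l * (u r ^ 4 + u r ^ 7) = 0 := by
  set T := Real.sqrt l with hTd
  have hTpos : 0 < T := Real.sqrt_pos.2 hl
  have hT2 : T ^ 2 = l := Real.sq_sqrt hl.le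
  have hW := contDiff_W hF ha
  set u : ℝ → ℝ := fun r => V a |r * T| with hu
  have hmul : ∀ r : ℝ, HasDerivAt (fun s : ℝ => s * T) T r := fun r => by
    simpa using (hasDerivAt_id r).mul_const T
  have hd1 : ∀ r, HasDerivAt u (-(r * T * GG V a (r * T)) * T) r := fun r =>
    HasDerivAt.comp (h₂ := fun s : ℝ => V a |s|) (h := fun s : ℝ => s * T) r
      (dW hF ha (r * T)) (hmul r)
  have e1 : deriv u = fun r => -(r * T * GG V a (r * T)) * T := funext fun r => (hd1 r).deriv
  have hd2 : ∀ r, HasDerivAt (fun r => -(r * T * GG V a (r * T)) * T)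
      ((-fp (V a |r * T|) + 2 * GG V a (r * T)) * T * T) r := fun r =>
    (HasDerivAt.comp (h₂ := fun s : ℝ => -(s * GG V a s)) (h := fun s : ℝ => s * T) r
      (dW2 hF ha (r * T)) (hmul r)).mul_const T
  refine ⟨u, 1, one_pos, ?_, ?_, ?_, ?_, ?_, ?_⟩
  · have : ContDiff ℝ 2 u := hW.comp (contDiff_id.mul contDiff_const)
    exact this.contDiffOn
  · simp [hu, hF.v0 a ha]
  · rw [e1]; simp
  · simp only [hu, one_mul, abs_of_pos hTpos]; exact hT.2.1
  · intro r hr
    have h1 : 0 ≤ r * T := mul_nonneg hr.1 hTpos.le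
    have h2 : r * T < T := by nlinarith [hr.2]
    simp only [hu, abs_of_nonneg h1]
    exact hT.2.2 _ ⟨h1, h2⟩
  · intro r hr
    have h1 : 0 < r * T := mul_pos hr.1 hTpos
    have h2 : r * T ≤ T := by nlinarith [hr.2]
    have hnn : 0 ≤ V a |r * T| := by
      rw [abs_of_pos h1]
      rcases eq_or_lt_of_le h2 with h | h
      · rw [h, hT.2.1]
      · exact (hT.2.2 _ ⟨h1.le, h⟩).le
    rw [e1, (hd2 r).deriv]
    simp only [hu]
    rw [fp_of_nonneg hnn, ← hT2]
    have hr0 : r ≠ 0 := hr.1.ne'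
    field_simp
    ring

end even

/-- the characterisation of the solution set -/
theorem mem_iff {V Q : ℝ → ℝ → ℝ} (hF : Fam V Q) (S : Set (ℝ × ℝ))
    (hS : ∀ l a : ℝ, (l, a) ∈ S ↔
        (0 < l ∧ ∃ u : ℝ → ℝ, ∃ ε : ℝ, 0 < ε ∧
          ContDiffOn ℝ 2 u (Set.Ioo (-ε) (1 + ε)) ∧
          u 0 = a ∧ deriv u 0 = 0 ∧ u 1 = 0 ∧
          (∀ r ∈ Set.Ico (0:ℝ) 1, 0 < u r) ∧
          ∀ r ∈ Set.Ioc (0:ℝ) 1,
            deriv (deriv u) r + 2 / r * deriv u r + l * (u r ^ 4 + u r ^ 7) = 0))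
    (l a : ℝ) : (l, a) ∈ S ↔ 0 < l ∧ 0 < a ∧ IsT V a (Real.sqrt l) := by
  rw [hS]
  constructor
  · rintro ⟨hl, u, ε, hε, hu, hu0, _, hu1, hpos, hode⟩
    exact ⟨hl, isT_of_sol hF hl hε hu hu0 hu1 hpos hode⟩
  · rintro ⟨hl, ha, hT⟩
    exact ⟨hl, sol_of_isT hF ha hl hT⟩

end Pool.Agent.W2helper26.LN
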